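import Mathlib

/-!
# Paths with `2 ^ i` edges
-/

namespace Pool.Agent.L5helper51.SX

open Finset

/-! ### Coordinates of paths with `2 ^ i` edges -/

/-- The inner vertices of a path with `2 ^ i` edges, as a binary tree. -/
def Tr (M : ℕ) : ℕ → Type
  | 0 => Unit
  | i + 1 => Tr M i × Fin M × Tr M i

instance instFintypeTr (M : ℕ) : ∀ i, Fintype (Tr M i)
  | 0 => inferInstanceAs (Fintype Unit)
  | i + 1 => by
    haveI := instFintypeTr M i
    exact inferInstanceAs (Fintype (Tr M i × Fin M × Tr M i))

/-- number of paths -/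
def nT (M i : ℕ) : ℕ := Fintype.card (Tr M i)

theorem nT_zero (M : ℕ) : nT M 0 = 1 := by
  change Fintype.card Unit = 1
  simp

theorem nT_succ (M i : ℕ) : nT M (i + 1) = nT M i * M * nT M i := by
  change Fintype.card (Tr M i × Fin M × Tr M i) = _
  rw [Fintype.card_prod, Fintype.card_prod, Fintype.card_fin, ← mul_assoc]
  rfl

theorem nT_pos {M : ℕ} (hM : 0 < M) (i : ℕ) : 0 < nT M i := by
  induction i with
  | zero => rw [nT_zero]; exact one_pos
  | succ i ih => rw [nT_succ]; positivity

/-- The vertices of the path with end points `u` and `v`. -/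
def pth {M : ℕ} : ∀ i : ℕ, Fin M → Tr M i → Fin M → ℕ → Fin M
  | 0, u, _, v, j => if j = 0 then u else v
  | i + 1, u, z, v, j => if j ≤ 2 ^ i then pth i u z.1 z.2.1 j else pth i z.2.1 z.2.2 v (j - 2 ^ i)

theorem pth_zero {M : ℕ} : ∀ (i : ℕ) (u : Fin M) (z : Tr M i) (v : Fin M), pth i u z v 0 = u
  | 0, u, z, v => by simp [pth]
  | i + 1, u, z, v => by
    rw [pth, if_pos (Nat.zero_le _)]
    exact pth_zero i _ _ _

theorem pth_last {M : ℕ} : ∀ (i : ℕ) (u : Fin M) (z : Tr M i) (v : Fin M), pth i u z v (2 ^ i) = v
  | 0, u, z, v => by simp [pth]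
  | i + 1, u, z, v => by
    have h : 2 ^ (i + 1) = 2 ^ i + 2 ^ i := by ring
    have h1 : 0 < 2 ^ i := by positivity
    rw [pth, if_neg (by omega), h, Nat.add_sub_cancel]
    exact pth_last i _ _ _

theorem pth_left {M : ℕ} (i : ℕ) (u : Fin M) (z : Tr M (i + 1)) (v : Fin M) {j : ℕ}
    (hj : j ≤ 2 ^ i) : pth (i + 1) u z v j = pth i u z.1 z.2.1 j := by
  rw [pth, if_pos hj]

theorem pth_right {M : ℕ} (i : ℕ) (u : Fin M) (z : Tr M (i + 1)) (v : Fin M) (j : ℕ) :
    pth (i + 1) u z v (2 ^ i + j) = pth i z.2.1 z.2.2 v j := by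
  rcases Nat.eq_zero_or_pos j with rfl | hj
  · rw [add_zero, pth, if_pos le_rfl, pth_last, pth_zero]
  · rw [pth, if_neg (by omega), Nat.add_sub_cancel_left]

open Classical in
/-- The number of paths with a given vertex in a given inner layer. -/
theorem card_pth {M : ℕ} : ∀ (i : ℕ) (u v x : Fin M) (j : ℕ), 0 < j → j < 2 ^ i →
    #{z : Tr M i | pth i u z v j = x} * M ≤ nT M i := by
  intro i
  induction i with
  | zero =>
    intro u v x j hj hj'
    omega
  | succ i ih =>
    intro u v x j hj hj'
    rw [nT_succ]
    rcases lt_trichotomy j (2 ^ i) with h | h | h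
    · -- left half
      have h1 : #{z : Tr M (i + 1) | pth (i + 1) u z v j = x} ≤
          ∑ y : Fin M, #{z : Tr M i | pth i u z y j = x} * nT M i := by
        have : #{z : Tr M (i + 1) | pth (i + 1) u z v j = x} ≤
            #(univ.sigma (fun y : Fin M => ({z : Tr M i | pth i u z y j = x} : Finset (Tr M i)) ×ˢ
              (univ : Finset (Tr M i)))) := by
          apply Finset.card_le_card_of_injOn (fun z => ⟨z.2.1, (z.1, z.2.2)⟩)
          · intro z hz
            simp only [coe_filter, mem_univ, true_and, Set.mem_ofPred_eq] at hz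
            rw [pth_left _ _ _ _ h.le] at hz
            simp [hz]
          · rintro ⟨z1, y, z2⟩ - ⟨z1', y', z2'⟩ - hzz
            simp only [Sigma.mk.injEq] at hzz
            obtain ⟨rfl, hzz⟩ := hzz
            rw [heq_eq_eq, Prod.mk.injEq] at hzz
            obtain ⟨rfl, rfl⟩ := hzz
            rfl
        refine this.trans (le_of_eq ?_)
        rw [card_sigma]
        apply Finset.sum_congr rfl
        intro y _
        rw [card_product]
        rfl
      calc #{z : Tr M (i + 1) | pth (i + 1) u z v j = x} * M
          ≤ (∑ y : Fin M, #{z : Tr M i | pth i u z y j = x} * nT M i) * M :=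
            Nat.mul_le_mul_right _ h1
        _ = ∑ y : Fin M, (#{z : Tr M i | pth i u z y j = x} * M) * nT M i := by
            rw [Finset.sum_mul]
            apply Finset.sum_congr rfl
            intro y _
            ring
        _ ≤ ∑ y : Fin M, nT M i * nT M i :=
            Finset.sum_le_sum (fun y _ => Nat.mul_le_mul_right _ (ih u y x j hj h))
        _ = nT M i * M * nT M i := by simp; ring
    · -- the middle
      subst h
      have h1 : #{z : Tr M (i + 1) | pth (i + 1) u z v (2 ^ i) = x} ≤ nT M i * nT M i := by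
        have : #{z : Tr M (i + 1) | pth (i + 1) u z v (2 ^ i) = x} ≤
            #((univ : Finset (Tr M i)) ×ˢ (univ : Finset (Tr M i))) := by
          apply Finset.card_le_card_of_injOn (fun z => (z.1, z.2.2))
          · intro z hz
            simp
          · intro z hz z' hz' hzz
            simp only [coe_filter, mem_univ, true_and, Set.mem_ofPred_eq] at hz hz'
            rw [pth_left _ _ _ _ le_rfl, pth_last] at hz hz'
            rw [Prod.mk.injEq] at hzz
            exact Prod.ext hzz.1 (Prod.ext (hz.trans hz'.symm) hzz.2)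
        refine this.trans (le_of_eq ?_)
        rw [card_product]
        rfl
      calc _ ≤ nT M i * nT M i * M := Nat.mul_le_mul_right _ h1
        _ = _ := by ring
    · -- right half
      obtain ⟨j', rfl⟩ := Nat.exists_eq_add_of_lt h
      have hj1 : 0 < j' + 1 := Nat.succ_pos _
      have hj2 : j' + 1 < 2 ^ i := by
        have h : 2 ^ (i + 1) = 2 ^ i + 2 ^ i := by ring
        omega
      rw [add_assoc]
      have h1 : #{z : Tr M (i + 1) | pth (i + 1) u z v (2 ^ i + (j' + 1)) = x} ≤
          ∑ y : Fin M, #{z : Tr M i | pth i y z v (j' + 1) = x} * nT M i := by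
        have : #{z : Tr M (i + 1) | pth (i + 1) u z v (2 ^ i + (j' + 1)) = x} ≤
            #(univ.sigma (fun y : Fin M => ({z : Tr M i | pth i y z v (j' + 1) = x} :
              Finset (Tr M i)) ×ˢ (univ : Finset (Tr M i)))) := by
          apply Finset.card_le_card_of_injOn (fun z => ⟨z.2.1, (z.2.2, z.1)⟩)
          · intro z hz
            simp only [coe_filter, mem_univ, true_and, Set.mem_ofPred_eq] at hz
            rw [pth_right] at hz
            simp [hz]
          · rintro ⟨z1, y, z2⟩ - ⟨z1', y', z2'⟩ - hzz
            simp only [Sigma.mk.injEq] at hzz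
            obtain ⟨rfl, hzz⟩ := hzz
            rw [heq_eq_eq, Prod.mk.injEq] at hzz
            obtain ⟨rfl, rfl⟩ := hzz
            rfl
        refine this.trans (le_of_eq ?_)
        rw [card_sigma]
        apply Finset.sum_congr rfl
        intro y _
        rw [card_product]
        rfl
      calc #{z : Tr M (i + 1) | pth (i + 1) u z v (2 ^ i + (j' + 1)) = x} * M
          ≤ (∑ y : Fin M, #{z : Tr M i | pth i y z v (j' + 1) = x} * nT M i) * M :=
            Nat.mul_le_mul_right _ h1
        _ = ∑ y : Fin M, (#{z : Tr M i | pth i y z v (j' + 1) = x} * M) * nT M i := by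
            rw [Finset.sum_mul]
            apply Finset.sum_congr rfl
            intro y _
            ring
        _ ≤ ∑ y : Fin M, nT M i * nT M i :=
            Finset.sum_le_sum (fun y _ => Nat.mul_le_mul_right _ (ih y v x (j' + 1) hj1 hj2))
        _ = nT M i * M * nT M i := by simp; ring

end Pool.Agent.L5helper51.SX
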