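import Pool.Agent.L5helper51.SX.Layer
import Pool.Agent.L5helper51.SX.Tree

/-!
# Counting the paths which are finished in a window of the program
-/

namespace Pool.Agent.L5helper51.SX

open Pool.Agent.L5helper51.SV (Mon evm evm_add walkWeight dist ext subset_ext mem_ext ext_le res)

open Finset

/-! ### Windows -/

variable {V R : Type*} {M ℓ : ℕ} {s t : V} (Λ : Lay V M ℓ s t)

namespace Lay

/-- no edge of `m` has its position in `[a, a + h)` -/
def Free (a h : ℕ) (m : Mon V) : Prop := ∀ e ∈ m.1, ¬ (a ≤ Λ.L e.1 ∧ Λ.L e.1 < a + h)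

/-- `m` contains the edges of `p` with position in `[a, a + h)` -/
def Full (p : ℕ → Fin M) (a h : ℕ) (m : Mon V) : Prop :=
  ∀ i, a ≤ i → i < a + h → Λ.edge p i ∈ m.1

/-- The part of the path `p` in `[a, a + h)` is put together in the window `W` of the program
`pre ++ W ++ post`. -/
def Good (out : R) (pre W post : List (Step V R)) (a h : ℕ) (p : ℕ → Fin M) : Prop :=
  ∃ W1 W2, W = W1 ++ W2 ∧ ∃ b, ∃ m ∈ cnt W1 (res (Λ.Free a h) (fin pre)) b,
    ∃ K ∈ Ctx out (W2 ++ post) (fin (pre ++ W1)) b, K + m = Λ.one p ∧ Λ.Full p a h m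

theorem res_sub (Q : Mon V → Prop) (C : R → Set (Mon V)) (a : R) : res Q C a ⊆ C a :=
  fun _ h => h.1

/-- The typical exceptional situation: a register contains a part of the path which meets
`[a, a + h)` but does not cover it. -/
def Exc (out : R) (pre post : List (Step V R)) (a h : ℕ) (b : R) (p : ℕ → Fin M) : Prop :=
  ∃ m ∈ fin pre b, ∃ K ∈ Ctx out post (fin pre) b, K + m = Λ.one p ∧
    ¬ Λ.Free a h m ∧ ¬ Λ.Full p a h m

theorem good_split {out : R} {pre Wa Wb post : List (Step V R)} {a h : ℕ} {p : ℕ → Fin M}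
    (hg : Λ.Good out pre (Wa ++ Wb) post a h p) :
    Λ.Good out pre Wa (Wb ++ post) a h p ∨ Λ.Good out (pre ++ Wa) Wb post a h p ∨
      ∃ b, Λ.Exc out (pre ++ Wa) (Wb ++ post) a h b p := by
  obtain ⟨W1, W2, hW, b, m, hm, K, hK, hKm, hfull⟩ := hg
  rcases List.append_eq_append_iff.1 hW with ⟨c, h1, h2⟩ | ⟨c, h1, h2⟩
  · -- `W1 = Wa ++ c`, `Wb = c ++ W2`
    subst h1
    rw [cnt_append] at hm
    have hsub : ∀ x, cnt Wa (res (Λ.Free a h) (fin pre)) x ⊆ fin (pre ++ Wa) x := by
      intro x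
      change _ ⊆ cnt (pre ++ Wa) (fun _ => ∅) x
      rw [cnt_append]
      exact cnt_mono Wa (res_sub _ _) x
    have hK' : K ∈ Ctx out (W2 ++ post) (cnt c (fin (pre ++ Wa))) b := by
      rw [fin, ← cnt_append, List.append_assoc]
      exact hK
    rcases trace out (Λ.Free a h) hsub c (W2 ++ post) b m K hm hK' with h3 | h3
    · right; left
      refine ⟨c, W2, h2, b, m, ?_, K, ?_, hKm, hfull⟩
      · exact cnt_mono c (D := res (Λ.Free a h) (fin (pre ++ Wa)))
          (fun x y hy => ⟨hsub x hy.1, hy.2⟩) b h3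
      · rw [List.append_assoc]; exact hK
    · obtain ⟨b', m0, hm0, hQ, m', rfl, hc⟩ := h3
      have hKm' : K + m' + m0 = Λ.one p := by rw [← hKm]; abel
      by_cases hf : Λ.Full p a h m0
      · left
        refine ⟨Wa, [], by simp, b', m0, hm0, K + m', ?_, hKm', hf⟩
        rw [h2, List.nil_append, List.append_assoc]
        exact hc
      · right; right
        refine ⟨b', m0, hsub _ hm0, K + m', ?_, hKm', hQ, hf⟩
        rw [h2, List.append_assoc]
        exact hc
  · -- `Wa = W1 ++ c`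
    left
    refine ⟨W1, c, h1, b, m, hm, K, ?_, hKm, hfull⟩
    rw [h2, List.append_assoc] at hK
    exact hK

theorem good_mono {out : R} {pre W post : List (Step V R)} {a h a' h' : ℕ} {p : ℕ → Fin M}
    (hg : Λ.Good out pre W post a h p) (ha : a ≤ a') (hh : a' + h' ≤ a + h) :
    Λ.Good out pre W post a' h' p := by
  obtain ⟨W1, W2, hW, b, m, hm, K, hK, hKm, hfull⟩ := hg
  refine ⟨W1, W2, hW, b, m, ?_, K, hK, hKm, fun i hi hi' => hfull i (by omega) (by omega)⟩
  refine cnt_mono W1 ?_ b hm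
  rintro x y ⟨hy, hQ⟩
  exact ⟨hy, fun e he h => hQ e he ⟨by omega, by omega⟩⟩

theorem good_length {out : R} {pre W post : List (Step V R)} {a h : ℕ} {p : ℕ → Fin M}
    (ha : a + h ≤ ℓ) (hh : 2 ≤ h) (hg : Λ.Good out pre W post a h p) : 2 ≤ W.length := by
  obtain ⟨W1, W2, hW, b, m, hm, K, hK, hKm, hfull⟩ := hg
  have key : ∀ i, a ≤ i → i < a + h → ∃ S ∈ W1, S.x = (Λ.edge p i).1 := by
    intro i hi hi'
    rcases cnt_support W1 _ b m hm _ (hfull i hi hi') with h1 | ⟨b', m', hm', he⟩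
    · exact h1
    · exfalso
      apply hm'.2 _ he
      rw [Λ.L_edge (by omega)]
      omega
  obtain ⟨c, hc, hc1⟩ := key a le_rfl (by omega)
  obtain ⟨c', hc', hc1'⟩ := key (a + 1) (by omega) (by omega)
  have hne : c ≠ c' := by
    rintro rfl
    have := congrArg Λ.L (hc1.symm.trans hc1')
    rw [Λ.L_edge (by omega), Λ.L_edge (by omega)] at this
    omega
  have h2 : 2 ≤ W1.length := by
    by_contra hcon
    push Not at hcon
    match W1, hc, hc', hcon with
    | [x], hc, hc', _ =>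
      rw [List.mem_singleton] at hc hc'
      exact hne (hc.trans hc'.symm)
  rw [hW, List.length_append]
  omega

/-- discrete intermediate values -/
theorem exists_bdry {A : ℕ → Prop} {a h i0 i1 : ℕ} (h0 : a ≤ i0) (h0' : i0 < a + h) (h1 : a ≤ i1)
    (h1' : i1 < a + h) (hA : A i0) (hA' : ¬ A i1) :
    ∃ j, a ≤ j ∧ j + 1 < a + h ∧ ((A j ∧ ¬ A (j + 1)) ∨ (¬ A j ∧ A (j + 1))) := by
  by_contra hcon
  push Not at hcon
  have key : ∀ n, a + n < a + h → (A (a + n) ↔ A a) := by
    intro n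
    induction n with
    | zero => intro _; rfl
    | succ n ih =>
      intro hn
      rw [← ih (by omega)]
      have := hcon (a + n) (by omega) (by omega)
      rw [← add_assoc]
      tauto
  obtain ⟨n0, rfl⟩ := Nat.exists_eq_add_of_le h0
  obtain ⟨n1, rfl⟩ := Nat.exists_eq_add_of_le h1
  rw [key n0 h0'] at hA
  rw [key n1 h1'] at hA'
  exact hA' hA

/-- In the exceptional situation one vertex of the path in an inner layer is determined by the
register. -/
theorem exc_typed {P pre post : List (Step V R)} {out : R} (hP : Sound P out s t)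
    (hPP : P = pre ++ post) {a h : ℕ} (hah : a + h ≤ ℓ) (b : R) (x0 : Fin M) :
    ∃ j, ∃ x : Fin M, (0 < h → (∃ p, Λ.Exc out pre post a h b p) → a < j ∧ j < a + h) ∧
      ∀ p, Λ.Exc out pre post a h b p → p j = x := by
  by_cases hex : ∃ q, Λ.Exc out pre post a h b q
  swap
  · exact ⟨0, x0, fun _ h => absurd h hex, fun p hp => absurd ⟨p, hp⟩ hex⟩
  obtain ⟨q, m, hm, K, hK, hKm, hfree, hfull⟩ := hex
  simp only [Free] at hfree
  push Not at hfree
  obtain ⟨e, he, he1, he2⟩ := hfree
  obtain ⟨⟨i0, hi0, rfl⟩, -⟩ := Λ.split_mem hKm he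
  rw [Λ.L_edge hi0] at he1 he2
  simp only [Full] at hfull
  push Not at hfull
  obtain ⟨i1, hi1, hi1', hne⟩ := hfull
  obtain ⟨j, hj, hj', hcase⟩ := exists_bdry (A := fun i => Λ.edge q i ∈ m.1) he1 he2 hi1 hi1' he hne
  refine ⟨j + 1, q (j + 1), fun _ _ => ⟨by omega, hj'⟩, ?_⟩
  rintro p ⟨m', hm', K', hK', hKm', -, -⟩
  have hx : K + m' ∈ fin P out := by
    rw [hPP, fin, cnt_append]
    exact plug hK hm'
  have hx' : K' + m ∈ fin P out := by
    rw [hPP, fin, cnt_append]
    exact plug hK' hm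
  rcases hcase with ⟨hc1, hc2⟩ | ⟨hc1, hc2⟩
  · refine (Λ.typing_bdry_right hP hKm hKm' hx (by omega) hc1 ?_).symm
    exact fun h => hc2 (Λ.typing_pos hP hKm' hKm hx' (by omega) h)
  · refine (Λ.typing_bdry_left hP hKm hKm' hx (by omega) hc2 ?_).symm
    exact fun h => hc1 (Λ.typing_pos hP hKm' hKm hx' (by omega) h)

open Classical in
/-- The set of the parts of paths (with given end points `u`, `v`) which are put together in the
window. -/
noncomputable def S (out : R) (pre W post : List (Step V R)) (i a : ℕ) (u v : Fin M) :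
    Finset (Tr M i) :=
  {z | ∃ p : ℕ → Fin M, (∀ j ≤ 2 ^ i, p (a + j) = pth i u z v j) ∧
    Λ.Good out pre W post a (2 ^ i) p}

theorem mem_S {out : R} {pre W post : List (Step V R)} {i a : ℕ} {u v : Fin M} {z : Tr M i} :
    z ∈ Λ.S out pre W post i a u v ↔ ∃ p : ℕ → Fin M, (∀ j ≤ 2 ^ i, p (a + j) = pth i u z v j) ∧
      Λ.Good out pre W post a (2 ^ i) p := by
  simp [S]

/-- the product inequality -/
theorem card_S_succ (out : R) (pre W post : List (Step V R)) (i a : ℕ) (u v : Fin M) :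
    #(Λ.S out pre W post (i + 1) a u v) ≤
      ∑ x : Fin M, #(Λ.S out pre W post i a u x) * #(Λ.S out pre W post i (a + 2 ^ i) x v) := by
  have h2 : 2 ^ (i + 1) = 2 ^ i + 2 ^ i := by ring
  have h3 : 0 < 2 ^ i := by positivity
  have : #(Λ.S out pre W post (i + 1) a u v) ≤
      #(univ.sigma (fun x : Fin M => (Λ.S out pre W post i a u x) ×ˢ
        (Λ.S out pre W post i (a + 2 ^ i) x v))) := by
    apply Finset.card_le_card_of_injOn (fun z => ⟨z.2.1, (z.1, z.2.2)⟩)
    · intro z hz
      rw [mem_coe, mem_S] at hz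
      obtain ⟨p, hp, hg⟩ := hz
      simp only [coe_sigma, Set.mem_sigma_iff, mem_coe, mem_univ, mem_product, true_and, mem_S]
      refine ⟨⟨p, ?_, Λ.good_mono hg le_rfl (by omega)⟩, ⟨p, ?_, Λ.good_mono hg (by omega) (by omega)⟩⟩
      · intro j hj
        rw [hp j (by omega), pth_left _ _ _ _ hj]
      · intro j hj
        rw [add_assoc, hp _ (by omega), pth_right]
    · rintro ⟨z1, y, z2⟩ - ⟨z1', y', z2'⟩ - hzz
      simp only [Sigma.mk.injEq] at hzz
      obtain ⟨rfl, hzz⟩ := hzz
      rw [heq_eq_eq, Prod.mk.injEq] at hzz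
      obtain ⟨rfl, rfl⟩ := hzz
      rfl
  refine this.trans (le_of_eq ?_)
  rw [card_sigma]
  apply Finset.sum_congr rfl
  intro y _
  rw [card_product]

/-- the splitting inequality -/
theorem card_S_split [Fintype R] {P : List (Step V R)} {out : R} (hP : Sound P out s t)
    {pre Wa Wb post : List (Step V R)} (hPP : P = pre ++ (Wa ++ Wb) ++ post) {i a : ℕ}
    (hai : a + 2 ^ i ≤ ℓ) (u v : Fin M) :
    #(Λ.S out pre (Wa ++ Wb) post i a u v) * M ≤
      (#(Λ.S out pre Wa (Wb ++ post) i a u v) + #(Λ.S out (pre ++ Wa) Wb post i a u v)) * M +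
        Fintype.card R * nT M i := by
  classical
  have hPP' : P = (pre ++ Wa) ++ (Wb ++ post) := by rw [hPP]; simp
  choose j x hj hx using fun b : R => Λ.exc_typed hP hPP' hai b u
  let E : R → Finset (Tr M i) := fun b =>
    {z | ∃ p : ℕ → Fin M, (∀ j ≤ 2 ^ i, p (a + j) = pth i u z v j) ∧
      Λ.Exc out (pre ++ Wa) (Wb ++ post) a (2 ^ i) b p}
  have hE : ∀ b, #(E b) * M ≤ nT M i := by
    intro b
    by_cases hex : ∃ p, Λ.Exc out (pre ++ Wa) (Wb ++ post) a (2 ^ i) b p
    · obtain ⟨h1, h2⟩ := hj b (by positivity) hex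
      refine le_trans (Nat.mul_le_mul_right _ (Finset.card_le_card ?_))
        (card_pth i u v (x b) (j b - a) (by omega) (by omega))
      intro z hz
      simp only [E, mem_filter, mem_univ, true_and] at hz ⊢
      obtain ⟨p, hp, he⟩ := hz
      rw [← hp _ (by omega), Nat.add_sub_cancel' h1.le]
      exact hx b p he
    · have : E b = ∅ := by
        apply Finset.filter_eq_empty_iff.2
        rintro z - ⟨p, -, hp⟩
        exact hex ⟨p, hp⟩
      rw [this]
      simp
  have hsub : Λ.S out pre (Wa ++ Wb) post i a u v ⊆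
      (Λ.S out pre Wa (Wb ++ post) i a u v ∪ Λ.S out (pre ++ Wa) Wb post i a u v) ∪
        univ.biUnion E := by
    intro z hz
    rw [mem_S] at hz
    obtain ⟨p, hp, hg⟩ := hz
    rcases Λ.good_split hg with h | h | ⟨b, h⟩
    · exact mem_union_left _ (mem_union_left _ (Λ.mem_S.2 ⟨p, hp, h⟩))
    · exact mem_union_left _ (mem_union_right _ (Λ.mem_S.2 ⟨p, hp, h⟩))
    · refine mem_union_right _ (mem_biUnion.2 ⟨b, mem_univ _, ?_⟩)
      simp only [E, mem_filter, mem_univ, true_and]
      exact ⟨p, hp, h⟩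
  calc #(Λ.S out pre (Wa ++ Wb) post i a u v) * M
      ≤ (#(Λ.S out pre Wa (Wb ++ post) i a u v) + #(Λ.S out (pre ++ Wa) Wb post i a u v) +
          ∑ b, #(E b)) * M := by
        apply Nat.mul_le_mul_right
        refine (Finset.card_le_card hsub).trans ((card_union_le _ _).trans ?_)
        exact add_le_add (card_union_le _ _) card_biUnion_le
    _ = (#(Λ.S out pre Wa (Wb ++ post) i a u v) + #(Λ.S out (pre ++ Wa) Wb post i a u v)) * M +
          ∑ b, #(E b) * M := by rw [add_mul, Finset.sum_mul]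
    _ ≤ _ := by
        apply Nat.add_le_add_left
        calc ∑ b, #(E b) * M ≤ ∑ _b : R, nT M i := Finset.sum_le_sum (fun b _ => hE b)
          _ = _ := by simp

theorem card_S_length {out : R} {pre W post : List (Step V R)} {a : ℕ}
    (hai : a + 2 ≤ ℓ) (hW : W.length ≤ 1) (u v : Fin M) :
    #(Λ.S out pre W post 1 a u v) = 0 := by
  rw [card_eq_zero, eq_empty_iff_forall_notMem]
  intro z hz
  obtain ⟨p, -, hg⟩ := Λ.mem_S.1 hz
  have := Λ.good_length hai le_rfl hg
  omega

end Lay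

end Pool.Agent.L5helper51.SX
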