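import Pool.Agent.L5helper51.SV.Walk0

/-!
# Programs with arbitrary `(min, +)` polynomial steps

A step visits a vertex `x` and replaces the contents of all registers simultaneously by arbitrary
`(min, +)` polynomials in the old contents and in the weights of the pairs `(x, y)`.
-/

namespace Pool.Agent.L5helper51.SX

/-- A step of a program: the visited vertex `x` and, for every register, a set of monomials. A
monomial is a list of registers and vertices together with a constant; a vertex `y` in this list
stands for the weight of the pair `(x, y)`. -/
structure Step (V R : Type*) where
  /-- the visited vertex -/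
  x : V
  /-- the monomials -/
  f : R → Set (List (R ⊕ V) × ℕ)

variable {V R : Type*}

/-- The effect of a step on the contents of the registers: the minimum of the values of the
monomials (`∞` if there is none). -/
noncomputable def Step.exec (w : V × V → ℕ∞) (σ : R → ℕ∞) (S : Step V R) : R → ℕ∞ :=
  fun a => ⨅ m ∈ S.f a, ((m.1.map (Sum.elim σ (fun y => w (S.x, y)))).sum + m.2)

/-- The contents of the registers after the program has been executed (from left to right). -/
noncomputable def exec (w : V × V → ℕ∞) (P : List (Step V R)) (σ : R → ℕ∞) : R → ℕ∞ :=
  P.foldl (fun σ S => S.exec w σ) σ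

/-- The value computed by the program `P` in the register `out`; at the start all registers contain
`∞`. -/
noncomputable def value (P : List (Step V R)) (out : R) (w : V × V → ℕ∞) : ℕ∞ :=
  exec w P (fun _ => ⊤) out

/-- An elementary step changes at most one register `a`: its new content is the weight of a pair
`(x, y)`, a constant, `∞`, or the minimum or the sum of the contents of two registers. -/
def Step.Elementary (S : Step V R) : Prop :=
  ∃ a, (∀ b, b ≠ a → S.f b = {([.inl b], 0)}) ∧
    ((∃ y, S.f a = {([.inr y], 0)}) ∨ (∃ c, S.f a = {([], c)}) ∨ S.f a = ∅ ∨
      (∃ b c, S.f a = {([.inl b], 0), ([.inl c], 0)}) ∨ (∃ b c, S.f a = {([.inl b, .inl c], 0)}))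

end Pool.Agent.L5helper51.SX
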