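import Pool.Agent.L5helper51.SX.Final
import Pool.Agent.L5helper51.SV.Upper

/-!
# Elementary steps; the upper bound in the model of steps
-/

namespace Pool.Agent.L5helper51.SX

open Pool.Agent.L5helper51.SV (Mon evm evm_add walkWeight dist ext subset_ext mem_ext ext_le res)

variable {V R : Type*}

open Classical in
/-- an instruction as a step -/
noncomputable def toStep (s : V) : SV.Instr V R → Step V R
  | .inp a e => ⟨e.1, fun b => if b = a then {([.inr e.2], 0)} else {([.inl b], 0)}⟩
  | .con a c => ⟨s, fun b => if b = a then {m | m.1 = [] ∧ (m.2 : ℕ∞) = c} else {([.inl b], 0)}⟩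
  | .mn a c d => ⟨s, fun b => if b = a then {([.inl c], 0), ([.inl d], 0)} else {([.inl b], 0)}⟩
  | .ad a c d => ⟨s, fun b => if b = a then {([.inl c, .inl d], 0)} else {([.inl b], 0)}⟩

theorem toStep_elementary (s : V) (i : SV.Instr V R) : (toStep s i).Elementary := by
  cases i with
  | inp a e => exact ⟨a, fun b hb => by simp [toStep, hb], Or.inl ⟨e.2, by simp [toStep]⟩⟩
  | con a c =>
    refine ⟨a, fun b hb => by simp [toStep, hb], Or.inr ?_⟩
    induction c using ENat.recTopCoe with
    | top =>
      refine Or.inr (Or.inl ?_)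
      ext m
      simp [toStep]
    | coe n =>
      refine Or.inl ⟨n, ?_⟩
      ext m
      simp [toStep, Prod.ext_iff]
  | mn a c d =>
    exact ⟨a, fun b hb => by simp [toStep, hb],
      Or.inr (Or.inr (Or.inr (Or.inl ⟨c, d, by simp [toStep]⟩)))⟩
  | ad a c d =>
    exact ⟨a, fun b hb => by simp [toStep, hb],
      Or.inr (Or.inr (Or.inr (Or.inr ⟨c, d, by simp [toStep]⟩)))⟩

theorem exec_toStep [DecidableEq R] (s : V) (w : V × V → ℕ∞) (σ : R → ℕ∞) (i : SV.Instr V R) :
    (toStep s i).exec w σ = i.exec w σ := by
  funext b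
  cases i with
  | inp a e =>
    by_cases hb : b = a
    · subst hb; simp [Step.exec, toStep, SV.Instr.exec]
    · simp [Step.exec, toStep, SV.Instr.exec, hb]
  | con a c =>
    by_cases hb : b = a
    · subst hb
      induction c using ENat.recTopCoe with
      | top => simp [Step.exec, toStep, SV.Instr.exec]
      | coe n =>
        simp only [Step.exec, toStep, SV.Instr.exec, if_true, Function.update_self]
        apply le_antisymm
        · refine (iInf₂_le ([], n) (by simp)).trans ?_
          simp
        · refine le_iInf₂ fun m hm => ?_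
          rw [Set.mem_ofPred_eq] at hm
          rw [hm.1, hm.2]
          simp
    · simp [Step.exec, toStep, SV.Instr.exec, hb]
  | mn a c d =>
    by_cases hb : b = a
    · subst hb
      simp only [Step.exec, toStep, SV.Instr.exec, if_true, Function.update_self]
      rw [iInf_insert, iInf_singleton]
      simp
    · simp [Step.exec, toStep, SV.Instr.exec, hb]
  | ad a c d =>
    by_cases hb : b = a
    · subst hb; simp [Step.exec, toStep, SV.Instr.exec]
    · simp [Step.exec, toStep, SV.Instr.exec, hb]

theorem exec_map_toStep [DecidableEq R] (s : V) (w : V × V → ℕ∞) : ∀ (P : List (SV.Instr V R))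
    (σ : R → ℕ∞), exec w (P.map (toStep s)) σ = SV.exec w P σ
  | [], σ => rfl
  | i :: P, σ => by
    change exec w (P.map (toStep s)) ((toStep s i).exec w σ) = SV.exec w P (i.exec w σ)
    rw [exec_toStep, exec_map_toStep s w P]

/-- **The upper bound** in the model of steps. -/
theorem upper_bound {V : Type} [Fintype V] {s t : V} (hst : s ≠ t) {i : ℕ}
    (hi : 2 ^ i ≤ Fintype.card V) :
    ∃ (R : Type) (_ : Fintype R) (P : List (Step V R)) (out : R),
      (∀ S ∈ P, S.Elementary) ∧ (∀ w : V × V → ℕ∞, value P out w = dist w s t) ∧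
      Fintype.card R ≤ 7 * (i + 1) * (Nat.log 2 (Fintype.card V) + 2) * (Fintype.card V / 2 ^ i) ∧
      P.length ≤ 128 * Fintype.card V ^ 9 * 2 ^ (i ^ 2) := by
  obtain ⟨R, hR, hR', P, out, h1, h2, h3⟩ := SV.upper_bound hst hi
  refine ⟨R, hR, P.map (toStep s), out, ?_, ?_, h2, by rw [List.length_map]; exact h3⟩
  · intro S hS
    obtain ⟨i, -, rfl⟩ := List.mem_map.1 hS
    exact toStep_elementary s i
  · intro w
    rw [value, exec_map_toStep]
    exact h1 w

end Pool.Agent.L5helper51.SX
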