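import Pool.Agent.L5helper51.SX.Main

/-!
# Forms of the lower bound
-/

namespace Pool.Agent.L5helper51.SX

open Pool.Agent.L5helper51.SV (Mon evm evm_add walkWeight dist ext subset_ext mem_ext ext_le res)

open Finset

variable {V R : Type*} [Fintype V] [Fintype R] {s t : V} {Ω : Type*} [Fintype Ω] [Nonempty Ω]
  {P : Ω → List (Step V R)} {out : R} {q T : ℕ}

theorem lower_pow (hst : s ≠ t) (hP : Randomized P out s t q T) {L : ℕ} (hL : 3 ≤ L)
    (hV : 2 ^ L * Fintype.card R ≤ Fintype.card V) : 2 ^ ((L - 1) ^ 2) ≤ (q * T) ^ 8 := by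
  have hr : 0 < Fintype.card R := Fintype.card_pos_iff.2 ⟨out⟩
  obtain ⟨y, rfl⟩ : ∃ y, L = y + 1 := ⟨L - 1, by omega⟩
  rw [Nat.add_sub_cancel]
  set j := y / 4 with hj
  set k := y + 1 - 2 - 2 * j with hk
  have hk1 : 1 ≤ k := by omega
  have hk2 : 2 * j + k + 2 = y + 1 := by omega
  have h1 : 4 * 2 ^ (j * (k + 1)) ≤ q * T := by
    have := lower_bound hst hP (g := 2 ^ j) (k := k) hk1 ?_
    · rwa [← pow_mul] at this
    · have h2 : 2 ^ (y + 1) * Fintype.card R = 4 * (2 ^ j) ^ 2 * Fintype.card R * 2 ^ k := by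
        rw [← hk2, pow_add, pow_add]
        ring
      have h3 : 4 * (2 ^ j) ^ 2 * Fintype.card R * (2 ^ k - 1) + 4 * (2 ^ j) ^ 2 * Fintype.card R =
          4 * (2 ^ j) ^ 2 * Fintype.card R * 2 ^ k := by
        have : 2 ^ k = (2 ^ k - 1) + 1 := (Nat.sub_add_cancel Nat.one_le_two_pow).symm
        conv_rhs => rw [this]
        ring
      have h4 : 0 < (2 ^ j) ^ 2 * Fintype.card R := by positivity
      have h5 : 4 * (2 ^ j) ^ 2 * Fintype.card R = 4 * ((2 ^ j) ^ 2 * Fintype.card R) := by ring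
      omega
  have h2 : (4 * 2 ^ (j * (k + 1))) ^ 8 = 2 ^ (16 + 8 * (j * (k + 1))) := by
    rw [mul_pow, ← pow_mul, pow_add]
    ring
  refine le_trans ?_ (Nat.pow_le_pow_left h1 8)
  rw [h2]
  apply Nat.pow_le_pow_right (by norm_num)
  obtain ⟨d, hd, hd'⟩ : ∃ d, y = 4 * j + d ∧ d ≤ 3 := ⟨y % 4, by omega, by omega⟩
  have hkk : k + 1 = 2 * j + d := by omega
  rw [hkk, hd]
  nlinarith

/-- Short programs need many registers. -/
theorem registers_ge (hst : s ≠ t) (hP : Randomized P out s t q T) {c : ℝ}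
    (hT : ((q * T : ℕ) : ℝ) ≤ (Fintype.card V : ℝ) ^ c) :
    (Fintype.card V : ℝ) / 2 ^ (3 + √(8 * c * Real.logb 2 (Fintype.card V))) ≤ Fintype.card R := by
  have hN : (0 : ℝ) < Fintype.card V := by
    have : 0 < Fintype.card V := Fintype.card_pos_iff.2 ⟨s⟩
    exact_mod_cast this
  have hr0 : 0 < Fintype.card R := Fintype.card_pos_iff.2 ⟨out⟩
  have hr : (0 : ℝ) < Fintype.card R := by exact_mod_cast hr0
  rw [div_le_iff₀ (by positivity)]
  set x : ℝ := 8 * c * Real.logb 2 (Fintype.card V) with hx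
  have hsq : 0 ≤ √x := Real.sqrt_nonneg _
  by_cases hV : 8 * Fintype.card R ≤ Fintype.card V
  · set L := Nat.log 2 (Fintype.card V / Fintype.card R) with hL
    have hdiv : 8 ≤ Fintype.card V / Fintype.card R := (Nat.le_div_iff_mul_le hr0).2 hV
    have hL3 : 3 ≤ L := Nat.le_log_of_pow_le (by norm_num) (by simpa using hdiv)
    have h1 : 2 ^ L * Fintype.card R ≤ Fintype.card V := by
      have := Nat.pow_log_le_self 2 (x := Fintype.card V / Fintype.card R) (by omega)
      exact (Nat.le_div_iff_mul_le hr0).1 this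
    have h2 := lower_pow hst hP hL3 h1
    have h3 : ((2 : ℝ) ^ ((L - 1) ^ 2)) ≤ (((q * T : ℕ) : ℝ)) ^ 8 := by exact_mod_cast h2
    have h4 : (((q * T : ℕ) : ℝ)) ^ 8 ≤ ((Fintype.card V : ℝ) ^ c) ^ 8 :=
      pow_le_pow_left₀ (Nat.cast_nonneg _) hT 8
    have h5 : ((Fintype.card V : ℝ) ^ c) ^ 8 = (2 : ℝ) ^ x := by
      have : (Fintype.card V : ℝ) = (2 : ℝ) ^ Real.logb 2 (Fintype.card V) :=
        (Real.rpow_logb (by norm_num) (by norm_num) hN).symm
      rw [← Real.rpow_natCast _ 8, ← Real.rpow_mul hN.le]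
      conv_lhs => rw [this]
      rw [← Real.rpow_mul (by norm_num), hx]
      congr 1
      push_cast
      ring
    have h6 : ((L : ℝ) - 1) ^ 2 ≤ x := by
      have h7 : (2 : ℝ) ^ (((L - 1) ^ 2 : ℕ) : ℝ) ≤ (2 : ℝ) ^ x := by
        rw [Real.rpow_natCast, ← h5]
        exact h3.trans h4
      rw [Real.rpow_le_rpow_left_iff (by norm_num)] at h7
      rwa [Nat.cast_pow, Nat.cast_sub (by omega : 1 ≤ L), Nat.cast_one] at h7
    have h8 : (L : ℝ) - 1 ≤ √x := Real.le_sqrt_of_sq_le h6
    have h9 : Fintype.card V < 2 ^ (L + 1) * Fintype.card R := by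
      have h10 : Fintype.card V / Fintype.card R < 2 ^ (L + 1) :=
        Nat.lt_pow_succ_log_self (by norm_num) _
      exact (Nat.div_lt_iff_lt_mul hr0).1 h10
    calc (Fintype.card V : ℝ) ≤ 2 ^ (L + 1) * Fintype.card R := by exact_mod_cast h9.le
      _ = Fintype.card R * (2 : ℝ) ^ ((L : ℝ) + 1) := by
          rw [mul_comm, ← Real.rpow_natCast]
          push_cast
          rfl
      _ ≤ _ := by
          apply mul_le_mul_of_nonneg_left _ hr.le
          apply Real.rpow_le_rpow_of_exponent_le (by norm_num)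
          linarith
  · push Not at hV
    calc (Fintype.card V : ℝ) ≤ 8 * Fintype.card R := by exact_mod_cast hV.le
      _ = Fintype.card R * (2 : ℝ) ^ (3 : ℝ) := by norm_num; ring
      _ ≤ _ := by
          apply mul_le_mul_of_nonneg_left _ hr.le
          apply Real.rpow_le_rpow_of_exponent_le (by norm_num)
          linarith

section visit

variable [DecidableEq V]

/-- layered set with one inner vertex -/
def lay2 {x : V} (hst : s ≠ t) (hxs : x ≠ s) (hxt : x ≠ t) : Lay V 1 2 s t where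
  node := fun j _ => if j = 0 then s else if j = 1 then x else t
  L := fun y => if y = s then 0 else if y = x then 1 else 2
  hL := by
    intro j hj _
    interval_cases j
    · simp
    · simp [hxs]
    · simp [hst.symm, hxt.symm]
  inj := fun _ _ _ a b _ => Subsingleton.elim a b
  h0 := fun _ => by simp
  hl := fun _ => by simp

/-- layered set without inner vertices -/
def lay1 (hst : s ≠ t) : Lay V 1 1 s t where
  node := fun j _ => if j = 0 then s else t
  L := fun y => if y = s then 0 else 1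
  hL := by
    intro j hj _
    interval_cases j
    · simp
    · simp [hst.symm]
  inj := fun _ _ _ a b _ => Subsingleton.elim a b
  h0 := fun _ => by simp
  hl := fun _ => by simp

omit [Fintype V] [Fintype R] [DecidableEq V] in
theorem visited_of_found {P : List (Step V R)} (hP : Sound P out s t) {M ℓ : ℕ} (Λ : Lay V M ℓ s t)
    (p : ℕ → Fin M) (hf : value P out (Λ.wt p) ≤ (ℓ : ℕ∞)) {i : ℕ} (hi : i < ℓ) :
    ∃ S ∈ P, S.x = Λ.node i (p i) := by
  rcases cnt_support P _ out _ (Λ.one_mem hP p hf) (Λ.edge p i) (Λ.mem_one.2 ⟨i, hi, rfl⟩) with h | h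
  · exact h
  · obtain ⟨b', m', hm', -⟩ := h
    exact absurd hm' (by simp)

omit [Fintype V] [Fintype R] [Nonempty Ω] in
/-- every vertex is visited with probability at least `1 / q` -/
theorem prob_visit (hst : s ≠ t) (hP : Randomized P out s t q T) {x : V} (hxt : x ≠ t) :
    Fintype.card Ω ≤ q * #{ω | ∃ S ∈ P ω, S.x = x} := by
  classical
  by_cases hxs : x = s
  · subst hxs
    have h2 := hP.prob ((lay1 hst).wt (fun _ => 0)) ((lay1 hst).wt_values _)
    rw [Nat.card_eq_fintype_card, Nat.card_eq_fintype_card, Fintype.card_subtype] at h2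
    refine h2.trans (Nat.mul_le_mul_left _ (Finset.card_le_card ?_))
    intro ω hω
    simp only [mem_filter, mem_univ, true_and] at hω ⊢
    have hf : value (P ω) out ((lay1 hst).wt (fun _ => 0)) ≤ ((1 : ℕ) : ℕ∞) := by
      rw [hω]
      exact (lay1 hst).dist_wt_le (by norm_num) _
    obtain ⟨S, hS, hS'⟩ := visited_of_found (hP.sound' ω) (lay1 hst) (fun _ => 0) hf
      (i := 0) (by norm_num)
    exact ⟨S, hS, hS'.trans (by simp [lay1])⟩
  · have h2 := hP.prob ((lay2 hst hxs hxt).wt (fun _ => 0)) ((lay2 hst hxs hxt).wt_values _)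
    rw [Nat.card_eq_fintype_card, Nat.card_eq_fintype_card, Fintype.card_subtype] at h2
    refine h2.trans (Nat.mul_le_mul_left _ (Finset.card_le_card ?_))
    intro ω hω
    simp only [mem_filter, mem_univ, true_and] at hω ⊢
    have hf : value (P ω) out ((lay2 hst hxs hxt).wt (fun _ => 0)) ≤ ((2 : ℕ) : ℕ∞) := by
      rw [hω]
      exact (lay2 hst hxs hxt).dist_wt_le (by norm_num) _
    obtain ⟨S, hS, hS'⟩ := visited_of_found (hP.sound' ω) (lay2 hst hxs hxt) (fun _ => 0) hf
      (i := 1) (by norm_num)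
    exact ⟨S, hS, hS'.trans (by simp [lay2])⟩

omit [Fintype R] in
/-- there are at least as many steps as vertices, up to `q` -/
theorem card_le (hst : s ≠ t) (hP : Randomized P out s t q T) : Fintype.card V ≤ q * T + 1 := by
  classical
  have hΩ : 0 < Fintype.card Ω := Fintype.card_pos
  have h1 : ∑ x ∈ (univ : Finset V).erase t, #{ω | ∃ S ∈ P ω, S.x = x} =
      ∑ ω, #{x ∈ (univ : Finset V).erase t | ∃ S ∈ P ω, S.x = x} := by
    simp only [Finset.card_filter]
    rw [Finset.sum_comm]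
  have h2 : ∀ ω, #{x ∈ (univ : Finset V).erase t | ∃ S ∈ P ω, S.x = x} ≤ T := by
    intro ω
    have hsub : ({x ∈ (univ : Finset V).erase t | ∃ S ∈ P ω, S.x = x} : Finset V) ⊆
        ((P ω).map (fun S => S.x)).toFinset := by
      intro x hx
      obtain ⟨S, hS, hSx⟩ := (Finset.mem_filter.1 hx).2
      rw [List.mem_toFinset, List.mem_map]
      exact ⟨S, hS, hSx⟩
    calc _ ≤ ((P ω).map (fun S => S.x)).toFinset.card := Finset.card_le_card hsub
      _ ≤ ((P ω).map (fun S => S.x)).length := List.toFinset_card_le _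
      _ = (P ω).length := List.length_map _
      _ ≤ T := hP.len ω
  have h3 : (Fintype.card V - 1) * Fintype.card Ω ≤ q * (T * Fintype.card Ω) := by
    calc (Fintype.card V - 1) * Fintype.card Ω
        = ∑ _x ∈ (univ : Finset V).erase t, Fintype.card Ω := by
          rw [Finset.sum_const, Finset.card_erase_of_mem (mem_univ _), card_univ, smul_eq_mul]
      _ ≤ ∑ x ∈ (univ : Finset V).erase t, q * #{ω | ∃ S ∈ P ω, S.x = x} :=
          Finset.sum_le_sum (fun x hx => prob_visit hst hP (Finset.ne_of_mem_erase hx))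
      _ = q * ∑ ω, #{x ∈ (univ : Finset V).erase t | ∃ S ∈ P ω, S.x = x} := by
          rw [← Finset.mul_sum, h1]
      _ ≤ q * ∑ _ω : Ω, T := Nat.mul_le_mul_left _ (Finset.sum_le_sum (fun ω _ => h2 ω))
      _ = _ := by rw [Finset.sum_const, card_univ, smul_eq_mul, mul_comm (Fintype.card Ω)]
  have h4 : (Fintype.card V - 1) * Fintype.card Ω ≤ (q * T) * Fintype.card Ω := by
    rw [mul_assoc]; exact h3
  have := Nat.le_of_mul_le_mul_right h4 hΩ
  omega

end visit

end Pool.Agent.L5helper51.SX
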