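import Pool.Agent.L5helper51.SX.Model

/-!
# Layered graphs: cuts, paths, and the registers of a correct program
-/

namespace Pool.Agent.L5helper51.SX

open Pool.Agent.L5helper51.SV (Mon evm evm_add walkWeight dist ext subset_ext mem_ext ext_le res)

variable {V R : Type*}

/-- A walk which starts in `S` and ends outside of `S` has infinite weight if the pairs which leave `S`
have infinite weight. -/
theorem walkWeight_top {w : V × V → ℕ∞} {S : Set V}
    (hw : ∀ x y, x ∈ S → y ∉ S → w (x, y) = ⊤) {v : V} (hv : v ∉ S) :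
    ∀ (l : List V) (u : V), u ∈ S → walkWeight w u l v = ⊤ := by
  intro l
  induction l with
  | nil => intro u hu; exact hw u v hu hv
  | cons x l ih =>
    intro u hu
    rw [walkWeight]
    by_cases hx : x ∈ S
    · rw [ih x hx]; simp
    · rw [hw u x hu hx]; simp

theorem dist_top {w : V × V → ℕ∞} {S : Set V}
    (hw : ∀ x y, x ∈ S → y ∉ S → w (x, y) = ⊤) {s t : V} (hs : s ∈ S) (ht : t ∉ S) :
    dist w s t = ⊤ := by
  rw [SV.dist, iInf_eq_top]
  exact fun l => walkWeight_top hw ht l s hs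

/-- The program `P` does not underestimate the least weight of a walk from `s` to `t` if the weights
are `0` or `∞`. -/
def Sound (P : List (Step V R)) (out : R) (s t : V) : Prop :=
  ∀ w : V × V → ℕ∞, (∀ e, w e = 0 ∨ w e = ⊤) → dist w s t ≤ value P out w

/-- The final formal contents. -/
abbrev fin (P : List (Step V R)) : R → Set (Mon V) := cnt P (fun _ => ∅)

/-- Every monomial in the register `out` of a sound program meets every cut. -/
theorem cut {P : List (Step V R)} {out : R} {s t : V} (hP : Sound P out s t) {m : Mon V}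
    (hm : m ∈ fin P out) {S : Set V} (hs : s ∈ S) (ht : t ∉ S) :
    ∃ e ∈ m.1, e.1 ∈ S ∧ e.2 ∉ S := by
  classical
  by_contra hcon
  push Not at hcon
  set w : V × V → ℕ∞ := fun e => if e.1 ∈ S ∧ e.2 ∉ S then ⊤ else 0 with hw
  have h1 : dist w s t ≤ value P out w := by
    apply hP
    intro e
    by_cases h : e.1 ∈ S ∧ e.2 ∉ S
    · right; simp [hw, h]
    · left; simp only [hw, if_neg h]
  have h2 : dist w s t = ⊤ := by
    apply dist_top (S := S) _ hs ht
    intro x y hx hy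
    simp [hw, hx, hy]
  have h3 : value P out w ≤ evm w m := upper w P (fun _ => ∅) (fun _ => ⊤) (by simp) out m hm
  have h3 := h1.trans h3
  rw [h2, top_le_iff, evm] at h3
  have h4 : (m.1.map w).sum = 0 := by
    apply Multiset.sum_eq_zero
    intro x hx
    obtain ⟨e, he, rfl⟩ := Multiset.mem_map.1 hx
    have : ¬ (e.1 ∈ S ∧ e.2 ∉ S) := fun h => h.2 (hcon e he h.1)
    simp only [hw, if_neg this]
  rw [h4, zero_add] at h3
  exact ENat.natCast_ne_top _ h3

/-- A layered set of vertices: `ℓ - 1` inner layers with `M` vertices each. -/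
structure Lay (V : Type*) (M ℓ : ℕ) (s t : V) where
  /-- the vertices -/
  node : ℕ → Fin M → V
  /-- the layer of a vertex -/
  L : V → ℕ
  hL : ∀ j ≤ ℓ, ∀ x, L (node j x) = j
  inj : ∀ j, 0 < j → j < ℓ → Function.Injective (node j)
  h0 : ∀ x, node 0 x = s
  hl : ∀ x, node ℓ x = t

namespace Lay

variable {M ℓ : ℕ} {s t : V} (Λ : Lay V M ℓ s t)

/-- the `i`-th edge of the path `p` -/
def edge (p : ℕ → Fin M) (i : ℕ) : V × V := (Λ.node i (p i), Λ.node (i + 1) (p (i + 1)))

/-- the monomial of the path `p` -/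
def one (p : ℕ → Fin M) : Mon V := ((Multiset.range ℓ).map (Λ.edge p), 0)

theorem mem_one {p : ℕ → Fin M} {e : V × V} : e ∈ (Λ.one p).1 ↔ ∃ i < ℓ, Λ.edge p i = e := by
  simp [one]

theorem L_edge {p : ℕ → Fin M} {i : ℕ} (hi : i < ℓ) : Λ.L (Λ.edge p i).1 = i := Λ.hL i hi.le _

theorem L_edge2 {p : ℕ → Fin M} {i : ℕ} (hi : i < ℓ) : Λ.L (Λ.edge p i).2 = i + 1 := Λ.hL _ hi _

theorem nodup_one (p : ℕ → Fin M) : (Λ.one p).1.Nodup := by
  apply Multiset.Nodup.map_on _ (Multiset.nodup_range ℓ)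
  intro i hi j hj h
  rw [Multiset.mem_range] at hi hj
  rw [← Λ.L_edge (p := p) hi, h, Λ.L_edge hj]

include Λ in
theorem L_s (M0 : Fin M) : Λ.L s = 0 := by
  exact (congrArg Λ.L (Λ.h0 M0)).symm.trans (Λ.hL 0 (Nat.zero_le _) _)

theorem L_t (M0 : Fin M) : Λ.L t = ℓ := by
  exact (congrArg Λ.L (Λ.hl M0)).symm.trans (Λ.hL ℓ le_rfl _)

/-- If `K + m` is a path, then every edge of `m` is an edge of the path and is not in `K`. -/
theorem split_mem {p : ℕ → Fin M} {K m : Mon V} (h : K + m = Λ.one p) {e : V × V} (he : e ∈ m.1) :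
    (∃ i < ℓ, e = Λ.edge p i) ∧ e ∉ K.1 := by
  have h1 : K.1 + m.1 = (Λ.one p).1 := by rw [← h]; rfl
  have h2 : (K.1 + m.1).Nodup := by rw [h1]; exact Λ.nodup_one p
  have h3 : e ∈ (Λ.one p).1 := by rw [← h1]; exact Multiset.mem_add.2 (Or.inr he)
  obtain ⟨i, hi, hie⟩ := Λ.mem_one.1 h3
  refine ⟨⟨i, hi, hie.symm⟩, fun hK => ?_⟩
  rw [Multiset.nodup_add] at h2
  exact Multiset.disjoint_left.1 h2.2.2 hK he

theorem split_mem' {p : ℕ → Fin M} {K m : Mon V} (h : K + m = Λ.one p) {e : V × V} (he : e ∈ K.1) :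
    (∃ i < ℓ, e = Λ.edge p i) ∧ e ∉ m.1 := by
  rw [add_comm] at h
  exact Λ.split_mem h he

theorem split_cover {p : ℕ → Fin M} {K m : Mon V} (h : K + m = Λ.one p) {i : ℕ} (hi : i < ℓ) :
    Λ.edge p i ∈ K.1 ∨ Λ.edge p i ∈ m.1 := by
  have h1 : K.1 + m.1 = (Λ.one p).1 := by rw [← h]; rfl
  rw [← Multiset.mem_add, h1]
  exact Λ.mem_one.2 ⟨i, hi, rfl⟩

/-- `m` has an edge of `p` in position `i` whenever `m'` has one of `q`, if `m` and `m'` are in the
same register. -/
theorem typing_pos {P : List (Step V R)} {out : R} (hP : Sound P out s t)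
    {p q : ℕ → Fin M} {K m K' m' : Mon V} (h : K + m = Λ.one p) (h' : K' + m' = Λ.one q)
    (hx : K + m' ∈ fin P out) {i : ℕ} (hi : i < ℓ) (hm : Λ.edge p i ∈ m.1) :
    Λ.edge q i ∈ m'.1 := by
  have M0 : Fin M := p 0
  obtain ⟨e, he, he1, he2⟩ := cut hP hx (S := {x | Λ.L x ≤ i})
    (by simp [Λ.L_s M0]) (by simp [Λ.L_t M0, hi])
  simp only [Set.mem_ofPred_eq, not_le] at he1 he2
  rw [Prod.fst_add, Multiset.mem_add] at he
  rcases he with he | he
  · obtain ⟨⟨j, hj, rfl⟩, hn⟩ := Λ.split_mem' h he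
    rw [Λ.L_edge hj] at he1
    rw [Λ.L_edge2 hj] at he2
    have : j = i := by omega
    subst this
    exact absurd hm hn
  · obtain ⟨⟨j, hj, rfl⟩, -⟩ := Λ.split_mem h' he
    rw [Λ.L_edge hj] at he1
    rw [Λ.L_edge2 hj] at he2
    have : j = i := by omega
    subst this
    exact he

/-- one type of boundary layer: position `j - 1` in `m`, position `j` not in `m` -/
theorem typing_bdry_right {P : List (Step V R)} {out : R} (hP : Sound P out s t)
    {p q : ℕ → Fin M} {K m K' m' : Mon V} (h : K + m = Λ.one p) (h' : K' + m' = Λ.one q)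
    (hx : K + m' ∈ fin P out) {j : ℕ} (hj : j + 1 < ℓ)
    (hm : Λ.edge p j ∈ m.1) (hm' : Λ.edge q (j + 1) ∉ m'.1) : p (j + 1) = q (j + 1) := by
  have M0 : Fin M := p 0
  obtain ⟨e, he, he1, he2⟩ := cut hP hx (S := {x | Λ.L x < j + 1 ∨ x = Λ.node (j + 1) (q (j + 1))})
    (by simp [Λ.L_s M0]) (by
      simp only [Set.mem_ofPred_eq, Λ.L_t M0, not_or, not_lt]
      refine ⟨hj.le, fun h => ?_⟩
      have h1 := (congrArg Λ.L h).symm.trans (Λ.L_t M0)
      rw [Λ.hL _ hj.le] at h1
      omega)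
  simp only [Set.mem_ofPred_eq, not_or, not_lt] at he1 he2
  rw [Prod.fst_add, Multiset.mem_add] at he
  have key : ∀ r : ℕ → Fin M, ∀ i < ℓ, e = Λ.edge r i → i = j ∨ i = j + 1 := by
    rintro r i hi rfl
    rw [Λ.L_edge hi] at he1
    rw [Λ.L_edge2 hi] at he2
    have h1 : i ≤ j + 1 := by
      rcases he1 with h1 | h1
      · omega
      · have := Λ.L_edge (p := r) hi
        rw [h1, Λ.hL _ hj.le] at this
        omega
    omega
  rcases he with he | he
  · obtain ⟨⟨i, hi, hie⟩, hn⟩ := Λ.split_mem' h he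
    rcases key p i hi hie with rfl | rfl
    · rw [hie] at hn
      exact absurd hm hn
    · rw [hie, Λ.L_edge hi] at he1
      rcases he1 with h1 | h1
      · omega
      · exact Λ.inj _ (Nat.succ_pos _) hj h1
  · obtain ⟨⟨i, hi, hie⟩, -⟩ := Λ.split_mem h' he
    rcases key q i hi hie with rfl | rfl
    · rw [hie] at he2
      exact absurd rfl he2.2
    · rw [hie] at he
      exact absurd he hm'

/-- the other type of boundary layer: position `j - 1` not in `m`, position `j` in `m` -/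
theorem typing_bdry_left {P : List (Step V R)} {out : R} (hP : Sound P out s t)
    {p q : ℕ → Fin M} {K m K' m' : Mon V} (h : K + m = Λ.one p) (h' : K' + m' = Λ.one q)
    (hx : K + m' ∈ fin P out) {j : ℕ} (hj : j + 1 < ℓ)
    (hm : Λ.edge p (j + 1) ∈ m.1) (hm' : Λ.edge q j ∉ m'.1) : p (j + 1) = q (j + 1) := by
  have M0 : Fin M := p 0
  obtain ⟨e, he, he1, he2⟩ := cut hP hx (S := {x | Λ.L x < j + 1 ∨ x = Λ.node (j + 1) (p (j + 1))})
    (by simp [Λ.L_s M0]) (by
      simp only [Set.mem_ofPred_eq, Λ.L_t M0, not_or, not_lt]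
      refine ⟨hj.le, fun h => ?_⟩
      have h1 := (congrArg Λ.L h).symm.trans (Λ.L_t M0)
      rw [Λ.hL _ hj.le] at h1
      omega)
  simp only [Set.mem_ofPred_eq, not_or, not_lt] at he1 he2
  rw [Prod.fst_add, Multiset.mem_add] at he
  have key : ∀ r : ℕ → Fin M, ∀ i < ℓ, e = Λ.edge r i → i = j ∨ i = j + 1 := by
    rintro r i hi rfl
    rw [Λ.L_edge hi] at he1
    rw [Λ.L_edge2 hi] at he2
    have h1 : i ≤ j + 1 := by
      rcases he1 with h1 | h1
      · omega
      · have := Λ.L_edge (p := r) hi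
        rw [h1, Λ.hL _ hj.le] at this
        omega
    omega
  rcases he with he | he
  · obtain ⟨⟨i, hi, hie⟩, hn⟩ := Λ.split_mem' h he
    rcases key p i hi hie with rfl | rfl
    · rw [hie] at he2
      exact absurd rfl he2.2
    · rw [hie] at hn
      exact absurd hm hn
  · obtain ⟨⟨i, hi, hie⟩, -⟩ := Λ.split_mem h' he
    rcases key q i hi hie with rfl | rfl
    · rw [hie] at he
      exact absurd he hm'
    · rw [hie, Λ.L_edge hi] at he1
      rcases he1 with h1 | h1
      · omega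
      · exact (Λ.inj _ (Nat.succ_pos _) hj h1).symm

/-- the weight of the walk along the path `p` from layer `a` on -/
theorem exists_walk (p : ℕ → Fin M) (w : V × V → ℕ∞) : ∀ (n a : ℕ), a + n + 1 = ℓ →
    (∀ i < ℓ, w (Λ.edge p i) = 1) →
    ∃ l : List V, walkWeight w (Λ.node a (p a)) l (Λ.node ℓ (p ℓ)) = (n + 1 : ℕ) := by
  intro n
  induction n with
  | zero =>
    intro a ha hw
    refine ⟨[], ?_⟩
    have : ℓ = a + 1 := by omega
    subst this
    simpa [walkWeight, edge] using hw a (by omega)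
  | succ n ih =>
    intro a ha hw
    obtain ⟨l, hl⟩ := ih (a + 1) (by omega) hw
    refine ⟨Λ.node (a + 1) (p (a + 1)) :: l, ?_⟩
    rw [walkWeight, hl]
    have := hw a (by omega)
    rw [edge] at this
    rw [this]
    push_cast
    ring

open Classical in
/-- the weights of a path: `1` on its edges and `∞` elsewhere -/
noncomputable def wt (p : ℕ → Fin M) : V × V → ℕ∞ :=
  fun e => if ∃ i < ℓ, Λ.edge p i = e then 1 else ⊤

theorem wt_edge (p : ℕ → Fin M) {i : ℕ} (hi : i < ℓ) : Λ.wt p (Λ.edge p i) = 1 := by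
  have : ∃ i' < ℓ, Λ.edge p i' = Λ.edge p i := ⟨i, hi, rfl⟩
  simp only [wt, if_pos this]

theorem wt_values (p : ℕ → Fin M) (e : V × V) : Λ.wt p e = 0 ∨ Λ.wt p e = 1 ∨ Λ.wt p e = ⊤ := by
  by_cases h : ∃ i < ℓ, Λ.edge p i = e
  · right; left; simp only [wt, if_pos h]
  · right; right; simp only [wt, if_neg h]

theorem dist_wt_le (hℓ : 0 < ℓ) (p : ℕ → Fin M) : dist (Λ.wt p) s t ≤ (ℓ : ℕ∞) := by
  obtain ⟨l, hl⟩ := Λ.exists_walk p (Λ.wt p) (ℓ - 1) 0 (by omega) (fun i hi => Λ.wt_edge p hi)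
  rw [Λ.h0, Λ.hl, Nat.sub_add_cancel hℓ] at hl
  rw [SV.dist]
  exact (iInf_le _ l).trans hl.le

/-- a path which is found by a sound program is a monomial of the register `out` -/
theorem one_mem {P : List (Step V R)} {out : R} (hP : Sound P out s t)
    (p : ℕ → Fin M) (hf : value P out (Λ.wt p) ≤ (ℓ : ℕ∞)) : Λ.one p ∈ fin P out := by
  classical
  have M0 : Fin M := p 0
  obtain ⟨w, hw⟩ : ∃ w, w = Λ.wt p := ⟨_, rfl⟩
  rw [← hw] at hf
  have hwp : ∀ i < ℓ, w (Λ.edge p i) = 1 := by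
    intro i hi
    rw [hw]
    exact Λ.wt_edge p hi
  have h3 : value P out w ≠ ⊤ := ne_top_of_le_ne_top (ENat.natCast_ne_top ℓ) hf
  obtain ⟨x, hx, hx'⟩ := attained w P (fun _ => ∅) (fun _ => ⊤) (by simp) out h3
  -- the support of `x`
  have hfin : evm w x ≠ ⊤ := by rw [← hx']; exact h3
  have hle : evm w x ≤ ℓ := by rw [← hx']; exact hf
  have hsupp : ∀ e ∈ x.1, ∃ i < ℓ, Λ.edge p i = e := by
    intro e he
    by_contra hcon
    apply hfin
    have : w e = ⊤ := by simp only [hw, wt, if_neg hcon]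
    obtain ⟨y, hy⟩ := Multiset.exists_cons_of_mem he
    rw [evm, hy, Multiset.map_cons, Multiset.sum_cons, this]
    simp
  have hcard : evm w x = ((Multiset.card x.1 + x.2 : ℕ) : ℕ∞) := by
    rw [evm]
    have : x.1.map w = x.1.map (fun _ => (1 : ℕ∞)) := by
      apply Multiset.map_congr rfl
      intro e he
      obtain ⟨i, hi, rfl⟩ := hsupp e he
      exact hwp i hi
    rw [this]
    simp
  rw [hcard, Nat.cast_le] at hle
  -- all edges of the path are in `x`
  have hcov : ∀ i < ℓ, Λ.edge p i ∈ x.1 := by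
    intro i hi
    obtain ⟨e, he, he1, he2⟩ := cut hP hx (S := {y | Λ.L y ≤ i})
      (by simp [Λ.L_s M0]) (by simp [Λ.L_t M0, hi])
    simp only [Set.mem_ofPred_eq, not_le] at he1 he2
    obtain ⟨j, hj, rfl⟩ := hsupp e he
    rw [Λ.L_edge hj] at he1
    rw [Λ.L_edge2 hj] at he2
    have : j = i := by omega
    subst this
    exact he
  have hle2 : (Λ.one p).1 ≤ x.1 := by
    rw [Multiset.le_iff_subset (Λ.nodup_one p)]
    intro e he
    obtain ⟨i, hi, rfl⟩ := Λ.mem_one.1 he
    exact hcov i hi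
  have hc1 : Multiset.card (Λ.one p).1 = ℓ := by simp [one]
  have h5 : (Λ.one p).1 = x.1 := by
    apply Multiset.eq_of_le_of_card_le hle2
    rw [hc1]
    omega
  have h6 : x.2 = 0 := by
    rw [← h5, hc1] at hle
    omega
  have : x = Λ.one p := Prod.ext h5.symm (by rw [h6]; rfl)
  rwa [this] at hx

end Lay

end Pool.Agent.L5helper51.SX
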