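import Pool.Agent.L5helper51.SX.Count

/-!
# The lower bound
-/

namespace Pool.Agent.L5helper51.SX

open Pool.Agent.L5helper51.SV (Mon evm evm_add walkWeight dist ext subset_ext mem_ext ext_le res)

open Finset

theorem exists_split {α : Type*} (W : List α) (n : ℕ) (h : n ≤ W.length) :
    ∃ W1 W2, W = W1 ++ W2 ∧ W1.length = n ∧ W2.length + n = W.length :=
  ⟨W.take n, W.drop n, (List.take_append_drop _ _).symm, by rw [List.length_take]; omega,
    by rw [List.length_drop]; omega⟩

variable {V R : Type*} {M ℓ : ℕ} {s t : V} (Λ : Lay V M ℓ s t)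

namespace Lay

theorem base_bound [Fintype R] {P : List (Step V R)} {out : R} (hP : Sound P out s t) {a : ℕ}
    (ha : a + 2 ≤ ℓ) (u v : Fin M) : ∀ (n : ℕ) (W pre post : List (Step V R)),
      P = pre ++ W ++ post → W.length = n →
      #(Λ.S out pre W post 1 a u v) * M ≤ n * (Fintype.card R * nT M 1) := by
  intro n
  induction n with
  | zero =>
    intro W pre post hPP hW
    rw [Λ.card_S_length ha (by omega)]
    simp
  | succ n ih =>
    intro W pre post hPP hW
    obtain ⟨W1, W2, hW12, h1, h2⟩ := exists_split W 1 (by omega)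
    subst hW12
    have h3 := Λ.card_S_split (Wa := W1) (Wb := W2) hP (pre := pre) (post := post)
      hPP (i := 1) (a := a) (by simpa using ha) u v
    rw [Λ.card_S_length (W := W1) ha (by omega), zero_add] at h3
    have h4 := ih W2 (pre ++ W1) post (by simpa using hPP) (by omega)
    refine h3.trans ((Nat.add_le_add_right h4 _).trans (le_of_eq ?_))
    ring

theorem main_bound [Fintype R] {P : List (Step V R)} {out : R} (hP : Sound P out s t) {g : ℕ}
    (hg : 0 < g) (hM : M = 4 * g ^ 2 * Fintype.card R) : ∀ (i : ℕ) (W pre post : List (Step V R))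
      (a : ℕ) (u v : Fin M), P = pre ++ W ++ post → a + 2 ^ (i + 1) ≤ ℓ →
      (#(Λ.S out pre W post (i + 1) a u v) : ℝ) * (4 * (g : ℝ) ^ (i + 2)) ≤
        W.length * nT M (i + 1) := by
  have hr : 0 < Fintype.card R := Fintype.card_pos_iff.2 ⟨out⟩
  have hM0 : 0 < M := by rw [hM]; positivity
  have hgR : (0 : ℝ) < g := by exact_mod_cast hg
  have hrR : (0 : ℝ) < Fintype.card R := by exact_mod_cast hr
  have hMR : (M : ℝ) = 4 * (g : ℝ) ^ 2 * Fintype.card R := by rw [hM]; push_cast; ring
  intro i
  induction i with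
  | zero =>
    intro W pre post a u v hPP ha
    have h := Λ.base_bound hP (a := a) (by simpa using ha) u v _ W pre post hPP rfl
    have h' : (#(Λ.S out pre W post 1 a u v) : ℝ) * M ≤
        W.length * (Fintype.card R * nT M 1) := by exact_mod_cast h
    rw [hMR] at h'
    have h'' : (#(Λ.S out pre W post 1 a u v) : ℝ) * (4 * (g : ℝ) ^ 2) * Fintype.card R ≤
        W.length * nT M 1 * Fintype.card R := by
      calc _ = (#(Λ.S out pre W post 1 a u v) : ℝ) * (4 * (g : ℝ) ^ 2 * Fintype.card R) := by ring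
        _ ≤ _ := h'
        _ = _ := by ring
    simpa using le_of_mul_le_mul_right h'' hrR
  | succ i ih =>
    intro W pre post a u v hPP ha
    have h2 : 2 ^ (i + 1 + 1) = 2 ^ (i + 1) + 2 ^ (i + 1) := by ring
    have h2pos : 0 < 2 ^ (i + 1) := by positivity
    set c : ℝ := (nT M (i + 1) : ℝ) with hc
    have hc0 : 0 < c := by
      rw [hc]
      exact_mod_cast nT_pos hM0 _
    set c' : ℝ := (nT M (i + 1 + 1) : ℝ) with hc'
    have hcc : c' = c * M * c := by
      rw [hc', nT_succ, hc]
      push_cast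
      ring
    have hc'0 : 0 < c' := by
      rw [hc']
      exact_mod_cast nT_pos hM0 _
    set κ : ℝ := 1 / (8 * (g : ℝ) ^ (i + 3)) with hκ
    have hκ0 : 0 < κ := by positivity
    -- short windows
    have short : ∀ (W pre post : List (Step V R)), P = pre ++ W ++ post →
        W.length ≤ 2 * g ^ (i + 1) →
        (#(Λ.S out pre W post (i + 1 + 1) a u v) : ℝ) ≤ W.length * κ * c' := by
      intro W pre post hPP hW
      have h3 := Λ.card_S_succ out pre W post (i + 1) a u v
      have h3' : (#(Λ.S out pre W post (i + 1 + 1) a u v) : ℝ) ≤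
          ∑ x : Fin M, (#(Λ.S out pre W post (i + 1) a u x) : ℝ) *
            #(Λ.S out pre W post (i + 1) (a + 2 ^ (i + 1)) x v) := by exact_mod_cast h3
      have hA : (0 : ℝ) < 4 * (g : ℝ) ^ (i + 2) := by positivity
      have h4 : ∀ x : Fin M, (#(Λ.S out pre W post (i + 1) a u x) : ℝ) ≤
          W.length * c / (4 * (g : ℝ) ^ (i + 2)) := by
        intro x
        rw [le_div_iff₀ hA]
        exact ih W pre post a u x hPP (by omega)
      have h5 : ∀ x : Fin M, (#(Λ.S out pre W post (i + 1) (a + 2 ^ (i + 1)) x v) : ℝ) ≤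
          W.length * c / (4 * (g : ℝ) ^ (i + 2)) := by
        intro x
        rw [le_div_iff₀ hA]
        exact ih W pre post (a + 2 ^ (i + 1)) x v hPP (by omega)
      have hWR : (W.length : ℝ) ≤ 2 * (g : ℝ) ^ (i + 1) := by exact_mod_cast hW
      calc (#(Λ.S out pre W post (i + 1 + 1) a u v) : ℝ)
          ≤ ∑ x : Fin M, (W.length * c / (4 * (g : ℝ) ^ (i + 2))) *
              (W.length * c / (4 * (g : ℝ) ^ (i + 2))) := by
            refine h3'.trans (Finset.sum_le_sum fun x _ => ?_)
            exact mul_le_mul (h4 x) (h5 x) (by positivity) (by positivity)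
        _ = (W.length : ℝ) * W.length / (4 * (g : ℝ) ^ (i + 2)) ^ 2 * (c * M * c) := by
            rw [Finset.sum_const, card_univ, Fintype.card_fin, nsmul_eq_mul]
            field_simp
        _ ≤ (W.length : ℝ) * (2 * (g : ℝ) ^ (i + 1)) / (4 * (g : ℝ) ^ (i + 2)) ^ 2 *
              (c * M * c) := by
            gcongr
        _ = W.length * κ * c' := by
            rw [hcc, hκ]
            have : (4 * (g : ℝ) ^ (i + 2)) ^ 2 = 2 * (g : ℝ) ^ (i + 1) * (8 * (g : ℝ) ^ (i + 3)) := by
              ring
            rw [this]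
            field_simp
    -- long windows
    have long : ∀ (n : ℕ) (W pre post : List (Step V R)), P = pre ++ W ++ post →
        W.length ≤ (n + 1) * (2 * g ^ (i + 1)) →
        (#(Λ.S out pre W post (i + 1 + 1) a u v) : ℝ) ≤
          (W.length * κ + n / (4 * (g : ℝ) ^ 2)) * c' := by
      intro n
      induction n with
      | zero =>
        intro W pre post hPP hW
        have := short W pre post hPP (by simpa using hW)
        simpa using this
      | succ n ihn =>
        intro W pre post hPP hW
        by_cases hW1 : W.length ≤ 2 * g ^ (i + 1)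
        · refine (short W pre post hPP hW1).trans ?_
          apply mul_le_mul_of_nonneg_right _ hc'0.le
          have : (0 : ℝ) ≤ ((n + 1 : ℕ) : ℝ) / (4 * (g : ℝ) ^ 2) := by positivity
          linarith
        · obtain ⟨Wa, Wb, hW2, hla, hlb⟩ := exists_split W (2 * g ^ (i + 1)) (by omega)
          have hlab : W.length = Wa.length + Wb.length := by omega
          have hPP2 : P = pre ++ (Wa ++ Wb) ++ post := by rw [← hW2]; exact hPP
          have h1 := Λ.card_S_split (Wa := Wa) (Wb := Wb) hP (pre := pre) (post := post)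
            hPP2 (i := i + 1 + 1) (a := a) ha u v
          rw [← hW2] at h1
          have h1' : (#(Λ.S out pre W post (i + 1 + 1) a u v) : ℝ) * M ≤
              (#(Λ.S out pre Wa (Wb ++ post) (i + 1 + 1) a u v) +
                #(Λ.S out (pre ++ Wa) Wb post (i + 1 + 1) a u v)) * M +
              Fintype.card R * c' := by rw [hc']; exact_mod_cast h1
          have h3 := short Wa pre (Wb ++ post) (by rw [hPP2]; simp only [List.append_assoc]) hla.le
          have h4 := ihn Wb (pre ++ Wa) post (by rw [hPP2]; simp only [List.append_assoc]) (by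
            have : (n + 1 + 1) * (2 * g ^ (i + 1)) = (n + 1) * (2 * g ^ (i + 1)) +
              2 * g ^ (i + 1) := by ring
            omega)
          have h5 : (#(Λ.S out pre W post (i + 1 + 1) a u v) : ℝ) ≤
              #(Λ.S out pre Wa (Wb ++ post) (i + 1 + 1) a u v) +
                #(Λ.S out (pre ++ Wa) Wb post (i + 1 + 1) a u v) +
                  1 / (4 * (g : ℝ) ^ 2) * c' := by
            have hMpos : (0 : ℝ) < M := by exact_mod_cast hM0
            refine le_of_mul_le_mul_right (h1'.trans (le_of_eq ?_)) hMpos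
            rw [add_mul _ (1 / (4 * (g : ℝ) ^ 2) * c')]
            congr 1
            rw [hMR]
            field_simp
          refine h5.trans ((add_le_add_left (add_le_add h3 h4) _).trans (le_of_eq ?_))
          rw [hlab]
          push_cast
          ring
    -- conclusion
    set W0 : ℕ := 2 * g ^ (i + 1) with hW0
    have hW0pos : 0 < W0 := by positivity
    set n := (W.length - 1) / W0 with hn
    have h6 : W.length ≤ (n + 1) * W0 := by
      have := Nat.lt_div_mul_add (a := W.length - 1) hW0pos
      rw [← hn] at this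
      have h7 : (n + 1) * W0 = n * W0 + W0 := by ring
      omega
    have h7 : n * W0 ≤ W.length := by
      have := Nat.div_mul_le_self (W.length - 1) W0
      rw [← hn] at this
      omega
    have h8 := long n W pre post hPP h6
    have h9 : (n : ℝ) / (4 * (g : ℝ) ^ 2) ≤ W.length * κ := by
      have h10 : (n : ℝ) * (2 * (g : ℝ) ^ (i + 1)) ≤ W.length := by exact_mod_cast h7
      rw [hκ, div_le_iff₀ (by positivity)]
      have : (W.length : ℝ) * (1 / (8 * (g : ℝ) ^ (i + 3))) * (4 * (g : ℝ) ^ 2) =
          W.length / (2 * (g : ℝ) ^ (i + 1)) := by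
        rw [show (g : ℝ) ^ (i + 3) = (g : ℝ) ^ (i + 1) * (g : ℝ) ^ 2 by ring]
        field_simp
        ring
      rw [this, le_div_iff₀ (by positivity)]
      exact h10
    calc (#(Λ.S out pre W post (i + 1 + 1) a u v) : ℝ) * (4 * (g : ℝ) ^ (i + 1 + 2))
        ≤ ((W.length * κ + n / (4 * (g : ℝ) ^ 2)) * c') * (4 * (g : ℝ) ^ (i + 1 + 2)) := by
          apply mul_le_mul_of_nonneg_right h8 (by positivity)
      _ ≤ ((W.length * κ + W.length * κ) * c') * (4 * (g : ℝ) ^ (i + 1 + 2)) := by
          gcongr
      _ = W.length * c' := by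
          rw [hκ, show i + 1 + 2 = i + 3 by ring]
          field_simp
          ring

open Classical in
/-- The parts of paths whose path is found by the program. -/
noncomputable def found (P : List (Step V R)) (out : R) (k : ℕ) (M0 : Fin M) : Finset (Tr M k) :=
  {z | value P out (Λ.wt (pth k M0 z M0)) ≤ (ℓ : ℕ∞)}

/-- A sound program finds at most the fraction `T / (4 g ^ (k + 1))` of the paths. -/
theorem found_le [Fintype R] {P : List (Step V R)} {out : R} (hP : Sound P out s t) {g k : ℕ}
    (hg : 0 < g) (hk : 1 ≤ k) (hM : M = 4 * g ^ 2 * Fintype.card R) (hl : ℓ = 2 ^ k) (M0 : Fin M) :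
    #(Λ.found P out k M0) * (4 * g ^ (k + 1)) ≤ P.length * nT M k := by
  obtain ⟨i, rfl⟩ := Nat.exists_eq_add_of_le' hk
  have h := Λ.main_bound hP hg hM i P [] [] 0 M0 M0 (by simp) (by omega)
  have hsub : Λ.found P out (i + 1) M0 ⊆ Λ.S out [] P [] (i + 1) 0 M0 M0 := by
    intro z hz
    simp only [found, mem_filter, mem_univ, true_and] at hz
    rw [mem_S]
    refine ⟨pth (i + 1) _ z _, fun j _ => by rw [zero_add], ?_⟩
    set p : ℕ → Fin M := pth (i + 1) M0 z M0
    refine ⟨P, [], by simp, out, Λ.one p, ?_, 0, zero_mem_ctx _ _, by simp, ?_⟩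
    · have h1 := Λ.one_mem hP p hz
      have h2 : res (Λ.Free 0 (2 ^ (i + 1))) (fin ([] : List (Step V R))) = fun _ => ∅ := by
        funext a
        ext m
        simp [res, fin, cnt_nil]
      rw [h2]
      exact h1
    · intro j _ hj
      exact Λ.mem_one.2 ⟨j, by omega, rfl⟩
  have h3 : (#(Λ.found P out (i + 1) M0) : ℝ) ≤ #(Λ.S out [] P [] (i + 1) 0 M0 M0) := by
    exact_mod_cast Finset.card_le_card hsub
  have h4 : (#(Λ.found P out (i + 1) M0) : ℝ) * (4 * (g : ℝ) ^ (i + 2)) ≤
      P.length * nT M (i + 1) :=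
    (mul_le_mul_of_nonneg_right h3 (by positivity)).trans h
  exact_mod_cast h4

end Lay

/-- Layered sets of vertices exist. -/
theorem exists_lay [Fintype V] {s t : V} (hst : s ≠ t) {M k : ℕ}
    (hV : M * (2 ^ k - 1) + 2 ≤ Fintype.card V) : Nonempty (Lay V M (2 ^ k) s t) := by
  classical
  have h1 : Fintype.card (Fin (2 ^ k - 1) × Fin M) ≤ Fintype.card {x : V // x ≠ s ∧ x ≠ t} := by
    have h2 : Fintype.card {x : V // x ≠ s ∧ x ≠ t} = Fintype.card V - 2 := by
      rw [Fintype.card_subtype]
      have : ({x | x ≠ s ∧ x ≠ t} : Finset V) = ((univ : Finset V).erase s).erase t := by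
        ext x; simp [and_comm]
      rw [this, card_erase_of_mem (by simp [hst.symm]), card_erase_of_mem (by simp), card_univ]
      omega
    rw [h2, Fintype.card_prod, Fintype.card_fin, Fintype.card_fin, mul_comm]
    omega
  obtain ⟨φ⟩ := Function.Embedding.nonempty_of_card_le h1
  have hpos : 0 < 2 ^ k := by positivity
  let node : ℕ → Fin M → V := fun j x =>
    if j = 0 then s else if h : j - 1 < 2 ^ k - 1 then (φ (⟨j - 1, h⟩, x)).1 else t
  let L : V → ℕ := fun y => if y = s then 0 else
    if h : ∃ z, (φ z).1 = y then h.choose.1.1 + 1 else 2 ^ k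
  have hφ : ∀ z z', (φ z).1 = (φ z').1 → z = z' := fun z z' h => φ.injective (Subtype.ext h)
  refine ⟨⟨node, L, ?_, ?_, ?_, ?_⟩⟩
  · intro j hj x
    by_cases h0 : j = 0
    · simp [node, L, h0]
    · by_cases h : j - 1 < 2 ^ k - 1
      · have hne : (φ (⟨j - 1, h⟩, x)).1 ≠ s := (φ (⟨j - 1, h⟩, x)).2.1
        have hex : ∃ z, (φ z).1 = (φ (⟨j - 1, h⟩, x)).1 := ⟨_, rfl⟩
        simp only [node, if_neg h0, dif_pos h, L, if_neg hne, dif_pos hex]
        rw [hφ _ _ hex.choose_spec]
        simp only
        omega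
      · have hts : t ≠ s := hst.symm
        have hex : ¬ ∃ z, (φ z).1 = t := by
          rintro ⟨z, hz⟩
          exact (φ z).2.2 hz
        simp only [node, if_neg h0, dif_neg h, L, if_neg hts, dif_neg hex]
        omega
  · intro j hj hj' x y hxy
    have h0 : j ≠ 0 := by omega
    have h : j - 1 < 2 ^ k - 1 := by omega
    simp only [node, if_neg h0, dif_pos h] at hxy
    have := hφ _ _ hxy
    rw [Prod.mk.injEq] at this
    exact this.2
  · intro x
    simp [node]
  · intro x
    have h0 : 2 ^ k ≠ 0 := hpos.ne'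
    simp only [node, if_neg h0, lt_self_iff_false, dif_neg, not_false_eq_true]

/-- A family of sound programs of length at most `T` such that for all weights in `{0, 1, ∞}` at
least the fraction `1 / q` of the programs computes the least weight of a walk. -/
structure Randomized {Ω : Type*} [Fintype Ω] (P : Ω → List (Step V R)) (out : R) (s t : V)
    (q T : ℕ) : Prop where
  len : ∀ ω, (P ω).length ≤ T
  sound : ∀ ω, ∀ w : V × V → ℕ∞, (∀ e, w e = 0 ∨ w e = 1 ∨ w e = ⊤) →
    dist w s t ≤ value (P ω) out w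
  prob : ∀ w : V × V → ℕ∞, (∀ e, w e = 0 ∨ w e = 1 ∨ w e = ⊤) →
    Nat.card Ω ≤ q * Nat.card {ω // value (P ω) out w = dist w s t}

theorem Randomized.sound' {Ω : Type*} [Fintype Ω] {P : Ω → List (Step V R)} {out : R} {s t : V}
    {q T : ℕ} (h : Randomized P out s t q T) (ω : Ω) : Sound (P ω) out s t :=
  fun w hw => h.sound ω w (fun e => (hw e).imp id Or.inr)

/-- **The lower bound.** -/
theorem lower_bound [Fintype V] [Fintype R] {s t : V} (hst : s ≠ t) {Ω : Type*} [Fintype Ω]
    [Nonempty Ω] {P : Ω → List (Step V R)} {out : R} {q T : ℕ} (hP : Randomized P out s t q T)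
    {g k : ℕ} (hk : 1 ≤ k)
    (hV : 4 * g ^ 2 * Fintype.card R * (2 ^ k - 1) + 2 ≤ Fintype.card V) :
    4 * g ^ (k + 1) ≤ q * T := by
  classical
  rcases Nat.eq_zero_or_pos g with rfl | hg
  · simp
  have hr : 0 < Fintype.card R := Fintype.card_pos_iff.2 ⟨out⟩
  obtain ⟨M, hM⟩ : ∃ M, M = 4 * g ^ 2 * Fintype.card R := ⟨_, rfl⟩
  rw [← hM] at hV
  have hM0 : 0 < M := by rw [hM]; positivity
  obtain ⟨Λ⟩ := exists_lay hst (M := M) hV
  have M0 : Fin M := ⟨0, hM0⟩
  have hΩ : 0 < Fintype.card Ω := Fintype.card_pos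
  have hn : 0 < nT M k := nT_pos hM0 k
  -- every path is found with probability at least `1 / q`
  have h1 : ∀ z : Tr M k, Fintype.card Ω ≤ q * #{ω | z ∈ Λ.found (P ω) out k M0} := by
    intro z
    have h2 := hP.prob (Λ.wt (pth k M0 z M0)) (Λ.wt_values _)
    rw [Nat.card_eq_fintype_card, Nat.card_eq_fintype_card, Fintype.card_subtype] at h2
    refine h2.trans (Nat.mul_le_mul_left _ (Finset.card_le_card ?_))
    intro ω hω
    simp only [mem_filter, mem_univ, true_and, Lay.found] at hω ⊢
    rw [hω]
    exact Λ.dist_wt_le (by positivity) _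
  have h2 : ∑ ω, #(Λ.found (P ω) out k M0) = ∑ z : Tr M k, #{ω | z ∈ Λ.found (P ω) out k M0} := by
    simp only [Finset.card_filter]
    rw [Finset.sum_comm]
    apply Finset.sum_congr rfl
    intro ω _
    rw [← Finset.card_filter]
    congr 1
    ext z
    simp
  have h3 : Fintype.card Ω * nT M k ≤ q * ∑ ω, #(Λ.found (P ω) out k M0) := by
    rw [h2, Finset.mul_sum]
    calc Fintype.card Ω * nT M k = ∑ _z : Tr M k, Fintype.card Ω := by
          rw [Finset.sum_const, card_univ, smul_eq_mul, mul_comm]; rfl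
      _ ≤ _ := Finset.sum_le_sum (fun z _ => h1 z)
  have h4 : (∑ ω, #(Λ.found (P ω) out k M0)) * (4 * g ^ (k + 1)) ≤ Fintype.card Ω * (T * nT M k) := by
    rw [Finset.sum_mul]
    calc ∑ ω, #(Λ.found (P ω) out k M0) * (4 * g ^ (k + 1)) ≤ ∑ _ω : Ω, T * nT M k := by
          apply Finset.sum_le_sum
          intro ω _
          refine (Λ.found_le (hP.sound' ω) hg hk hM rfl M0).trans ?_
          exact Nat.mul_le_mul_right _ (hP.len ω)
      _ = _ := by rw [Finset.sum_const, card_univ, smul_eq_mul]
  have h5 : (Fintype.card Ω * nT M k) * (4 * g ^ (k + 1)) ≤ (Fintype.card Ω * nT M k) * (q * T) := by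
    calc (Fintype.card Ω * nT M k) * (4 * g ^ (k + 1))
        ≤ (q * ∑ ω, #(Λ.found (P ω) out k M0)) * (4 * g ^ (k + 1)) := Nat.mul_le_mul_right _ h3
      _ = q * ((∑ ω, #(Λ.found (P ω) out k M0)) * (4 * g ^ (k + 1))) := by ring
      _ ≤ q * (Fintype.card Ω * (T * nT M k)) := Nat.mul_le_mul_left _ h4
      _ = _ := by ring
  exact Nat.le_of_mul_le_mul_left h5 (by positivity)

end Pool.Agent.L5helper51.SX
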