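import Pool.Agent.L5helper51.SV.Defs
import Pool.Agent.L5helper51.SX.Def

/-!
# Programs with arbitrary `(min, +)` polynomial steps

A step visits a vertex `x` and replaces the contents of all registers simultaneously by arbitrary
`(min, +)` polynomials in the old contents and in the weights of the pairs `(x, y)`.
-/

namespace Pool.Agent.L5helper51.SX

open Pool.Agent.L5helper51.SV (Mon evm evm_add walkWeight dist ext subset_ext mem_ext ext_le res)

variable {V R : Type*}

/-- contents of a register or the monomial of a weight -/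
def atom (C : R → Set (Mon V)) (x : V) : R ⊕ V → Set (Mon V) :=
  Sum.elim C (fun v => {({(x, v)}, 0)})

/-- sums along a list -/
def lsum (C : R → Set (Mon V)) (x : V) : List (R ⊕ V) → Set (Mon V)
  | [] => {0}
  | b :: l => {m | ∃ y ∈ atom C x b, ∃ z ∈ lsum C x l, y + z = m}

/-- The formal effect of a step. -/
def Step.cnt (C : R → Set (Mon V)) (S : Step V R) : R → Set (Mon V) :=
  fun a => {m | ∃ lc ∈ S.f a, ∃ z ∈ lsum C S.x lc.1, z + (0, lc.2) = m}

/-- The formal contents after a program. -/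
def cnt (P : List (Step V R)) (C : R → Set (Mon V)) : R → Set (Mon V) :=
  P.foldl (fun C i => i.cnt C) C

theorem cnt_nil (C : R → Set (Mon V)) : cnt [] C = C := rfl

theorem cnt_cons (i : Step V R) (P : List (Step V R)) (C : R → Set (Mon V)) :
    cnt (i :: P) C = cnt P (i.cnt C) := rfl

theorem cnt_append (P Q : List (Step V R)) (C : R → Set (Mon V)) :
    cnt (P ++ Q) C = cnt Q (cnt P C) := by
  simp [cnt, List.foldl_append]

theorem evm_const (w : V × V → ℕ∞) (c : ℕ) : evm w ((0, c) : Mon V) = c := by simp [evm]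

theorem evm_pair (w : V × V → ℕ∞) (e : V × V) : evm w (({e}, 0) : Mon V) = w e := by simp [evm]

theorem lsum_upper (w : V × V → ℕ∞) {C : R → Set (Mon V)} {σ : R → ℕ∞} (x : V)
    (h : ∀ a, ∀ m ∈ C a, σ a ≤ evm w m) : ∀ (l : List (R ⊕ V)) (m : Mon V), m ∈ lsum C x l →
      (l.map (Sum.elim σ (fun y => w (x, y)))).sum ≤ evm w m
  | [], m, hm => by simp
  | b :: l, m, hm => by
    obtain ⟨y, hy, z, hz, rfl⟩ := hm
    rw [List.map_cons, List.sum_cons, evm_add]
    refine add_le_add ?_ (lsum_upper w x h l z hz)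
    cases b with
    | inl b => exact h b y hy
    | inr v =>
      rw [Set.mem_singleton_iff.1 hy, evm_pair]
      rfl

theorem lsum_attained (w : V × V → ℕ∞) {C : R → Set (Mon V)} {σ : R → ℕ∞} (x : V)
    (h : ∀ a, σ a ≠ ⊤ → ∃ m ∈ C a, σ a = evm w m) : ∀ (l : List (R ⊕ V)),
      (l.map (Sum.elim σ (fun y => w (x, y)))).sum ≠ ⊤ → ∃ m ∈ lsum C x l,
        (l.map (Sum.elim σ (fun y => w (x, y)))).sum = evm w m
  | [], _ => ⟨0, rfl, by simp [evm]⟩
  | b :: l, hl => by
    rw [List.map_cons, List.sum_cons] at hl ⊢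
    have h1 : Sum.elim σ (fun y => w (x, y)) b ≠ ⊤ := fun h' => hl (by simp [h'])
    have h2 : (l.map (Sum.elim σ (fun y => w (x, y)))).sum ≠ ⊤ := fun h' => hl (by simp [h'])
    obtain ⟨z, hz, hz'⟩ := lsum_attained w x h l h2
    cases b with
    | inl b =>
      obtain ⟨y, hy, hy'⟩ := h b h1
      exact ⟨y + z, ⟨y, hy, z, hz, rfl⟩, by rw [evm_add, ← hz', ← hy']; rfl⟩
    | inr v =>
      exact ⟨({(x, v)}, 0) + z, ⟨_, rfl, z, hz, rfl⟩, by rw [evm_add, ← hz', evm_pair]; rfl⟩

/-- contents and values correspond: upper bound -/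
theorem upper (w : V × V → ℕ∞) (P : List (Step V R)) :
    ∀ (C : R → Set (Mon V)) (σ : R → ℕ∞), (∀ a, ∀ x ∈ C a, σ a ≤ evm w x) →
      ∀ a, ∀ x ∈ cnt P C a, exec w P σ a ≤ evm w x := by
  induction P with
  | nil => intro C σ h; exact h
  | cons i P ih =>
    intro C σ h
    rw [cnt_cons]
    change ∀ a, ∀ x ∈ cnt P (i.cnt C) a, exec w P (i.exec w σ) a ≤ evm w x
    apply ih
    rintro a m ⟨lc, hlc, z, hz, rfl⟩
    rw [Step.exec, evm_add, evm_const]
    refine (iInf₂_le lc hlc).trans ?_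
    exact add_le_add (lsum_upper w i.x h lc.1 z hz) le_rfl

/-- contents and values correspond: finite values are attained -/
theorem attained (w : V × V → ℕ∞) (P : List (Step V R)) :
    ∀ (C : R → Set (Mon V)) (σ : R → ℕ∞), (∀ a, σ a ≠ ⊤ → ∃ x ∈ C a, σ a = evm w x) →
      ∀ a, exec w P σ a ≠ ⊤ → ∃ x ∈ cnt P C a, exec w P σ a = evm w x := by
  induction P with
  | nil => intro C σ h; exact h
  | cons i P ih =>
    intro C σ h
    rw [cnt_cons]
    change ∀ a, exec w P (i.exec w σ) a ≠ ⊤ →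
      ∃ x ∈ cnt P (i.cnt C) a, exec w P (i.exec w σ) a = evm w x
    apply ih
    intro a ha
    rw [Step.exec, iInf_subtype'] at ha ⊢
    by_cases hne : Nonempty (i.f a)
    · obtain ⟨⟨lc, hlc⟩, hlc'⟩ := ENat.exists_eq_iInf
        (fun m : (i.f a) => (((m : List (R ⊕ V) × ℕ).1.map
          (Sum.elim σ (fun y => w (i.x, y)))).sum + ((m : List (R ⊕ V) × ℕ).2 : ℕ∞)))
      rw [← hlc'] at ha ⊢
      simp only at ha ⊢
      have h1 : (lc.1.map (Sum.elim σ (fun y => w (i.x, y)))).sum ≠ ⊤ := fun h' => ha (by simp [h'])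
      obtain ⟨z, hz, hz'⟩ := lsum_attained w i.x h lc.1 h1
      exact ⟨z + (0, lc.2), ⟨lc, hlc, z, hz, rfl⟩, by rw [evm_add, evm_const, hz']⟩
    · exfalso
      rw [not_nonempty_iff] at hne
      exact ha (by rw [iInf_of_empty])

theorem lsum_mono {C D : R → Set (Mon V)} (h : ∀ a, C a ⊆ D a) (x : V) : ∀ (l : List (R ⊕ V)),
    lsum C x l ⊆ lsum D x l
  | [] => subset_rfl
  | b :: l => by
    rintro m ⟨y, hy, z, hz, rfl⟩
    refine ⟨y, ?_, z, lsum_mono h x l hz, rfl⟩
    cases b with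
    | inl b => exact h b hy
    | inr v => exact hy

theorem Step.cnt_mono (i : Step V R) {C D : R → Set (Mon V)} (h : ∀ a, C a ⊆ D a) :
    ∀ a, i.cnt C a ⊆ i.cnt D a := by
  rintro a m ⟨lc, hlc, z, hz, rfl⟩
  exact ⟨lc, hlc, z, lsum_mono h i.x lc.1 hz, rfl⟩

theorem cnt_mono (P : List (Step V R)) : ∀ {C D : R → Set (Mon V)}, (∀ a, C a ⊆ D a) →
    ∀ a, cnt P C a ⊆ cnt P D a := by
  induction P with
  | nil => intro C D h; exact h
  | cons i P ih =>
    intro C D h
    rw [cnt_cons, cnt_cons]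
    exact ih (i.cnt_mono h)

/-- the pairs in a sum -/
theorem lsum_support {C : R → Set (Mon V)} {x : V} : ∀ (l : List (R ⊕ V)) (m : Mon V),
    m ∈ lsum C x l → ∀ e ∈ m.1, e.1 = x ∨ ∃ b, ∃ m' ∈ C b, e ∈ m'.1
  | [], m, hm, e, he => by
    rw [Set.mem_singleton_iff.1 hm] at he
    simp at he
  | b :: l, m, hm, e, he => by
    obtain ⟨y, hy, z, hz, rfl⟩ := hm
    rw [Prod.fst_add, Multiset.mem_add] at he
    rcases he with he | he
    · cases b with
      | inl b => exact Or.inr ⟨b, y, hy, he⟩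
      | inr v =>
        rw [Set.mem_singleton_iff.1 hy, Multiset.mem_singleton] at he
        rw [he]
        exact Or.inl rfl
    · exact lsum_support l z hz e he

/-- every pair in a monomial leaves a visited vertex or was there at the start -/
theorem cnt_support (W : List (Step V R)) : ∀ (C : R → Set (Mon V)) (b : R) (m : Mon V),
    m ∈ cnt W C b → ∀ e ∈ m.1, (∃ S ∈ W, S.x = e.1) ∨ ∃ b', ∃ m' ∈ C b', e ∈ m'.1 := by
  induction W with
  | nil => intro C b m hm e he; exact Or.inr ⟨b, m, hm, he⟩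
  | cons i W ih =>
    intro C b m hm e he
    rcases ih (i.cnt C) b m hm e he with ⟨S, hS, hS'⟩ | ⟨b', m', ⟨lc, hlc, z, hz, rfl⟩, he'⟩
    · exact Or.inl ⟨S, List.mem_cons_of_mem _ hS, hS'⟩
    · rw [Prod.fst_add] at he'
      simp only [add_zero] at he'
      rcases lsum_support lc.1 z hz e he' with h | h
      · exact Or.inl ⟨i, by simp, h.symm⟩
      · exact Or.inr h

/-- `K` is a context of the register `a` if every monomial `m` in the register `a` is finally
completed to `K + m` -/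
def Ctx (out : R) (P : List (Step V R)) (C : R → Set (Mon V)) (a : R) : Set (Mon V) :=
  {K | ∀ m, K + m ∈ cnt P (ext C a m) out}

theorem plug {out : R} {P : List (Step V R)} {C : R → Set (Mon V)} {a : R} {K m : Mon V}
    (hK : K ∈ Ctx out P C a) (hm : m ∈ C a) : K + m ∈ cnt P C out := by
  refine cnt_mono P ?_ out (hK m)
  rintro x y (hy | ⟨rfl, rfl⟩)
  · exact hy
  · exact hm

theorem zero_mem_ctx (out : R) (C : R → Set (Mon V)) : (0 : Mon V) ∈ Ctx out [] C out := by
  intro m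
  rw [zero_add]
  exact Or.inr ⟨rfl, rfl⟩

theorem ctx_step {out : R} {i : Step V R} {P : List (Step V R)} {C : R → Set (Mon V)} {a b : R}
    {K k : Mon V} (hK : K ∈ Ctx out P (i.cnt C) b)
    (h : ∀ m, ∀ x, ext (i.cnt C) b (k + m) x ⊆ i.cnt (ext C a m) x) :
    K + k ∈ Ctx out (i :: P) C a := by
  intro m
  rw [cnt_cons, add_assoc]
  exact cnt_mono P (h m) out (hK (k + m))

theorem lsum_append {C : R → Set (Mon V)} {x : V} {l2 : List (R ⊕ V)} {z2 : Mon V}
    (h2 : z2 ∈ lsum C x l2) : ∀ (l1 : List (R ⊕ V)) (z1 : Mon V), z1 ∈ lsum C x l1 →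
      z1 + z2 ∈ lsum C x (l1 ++ l2)
  | [], z1, h1 => by
    rw [Set.mem_singleton_iff.1 h1, zero_add]
    exact h2
  | b :: l1, z1, h1 => by
    obtain ⟨y, hy, z, hz, rfl⟩ := h1
    rw [add_assoc]
    exact ⟨y, hy, z + z2, lsum_append h2 l1 z hz, rfl⟩

theorem lsum_single {C : R → Set (Mon V)} {x : V} {b : R ⊕ V} {y : Mon V} (hy : y ∈ atom C x b) :
    y ∈ lsum C x [b] := ⟨y, hy, 0, rfl, add_zero y⟩

/-- the contexts of the factors of a monomial -/
theorem ctx_factor {out a b : R} {i : Step V R} {P : List (Step V R)} {C : R → Set (Mon V)}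
    {K k1 k2 : Mon V} (hK : K ∈ Ctx out P (i.cnt C) a) {l1 l2 : List (R ⊕ V)} {c : ℕ}
    (hf : (l1 ++ .inl b :: l2, c) ∈ i.f a) (h1 : k1 ∈ lsum C i.x l1) (h2 : k2 ∈ lsum C i.x l2) :
    K + (k1 + k2 + (0, c)) ∈ Ctx out (i :: P) C b := by
  refine ctx_step (a := b) hK ?_
  intro m x
  apply ext_le (i.cnt_mono (subset_ext C b m))
  have hm : m + k2 ∈ lsum (ext C b m) i.x (.inl b :: l2) :=
    ⟨m, mem_ext C b m, k2, lsum_mono (subset_ext C b m) i.x l2 h2, rfl⟩
  refine ⟨_, hf, k1 + (m + k2), lsum_append hm l1 k1 (lsum_mono (subset_ext C b m) i.x l1 h1), ?_⟩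
  abel

/-- The trace lemma. -/
theorem trace (out : R) (Q : Mon V → Prop) {D D' : R → Set (Mon V)} (hD : ∀ a, D' a ⊆ D a)
    (P : List (Step V R)) : ∀ (rest : List (Step V R)) (a : R) (m K : Mon V),
      m ∈ cnt P D' a → K ∈ Ctx out rest (cnt P D) a →
      m ∈ cnt P (res Q D') a ∨
        ∃ b, ∃ m0 ∈ D' b, ¬ Q m0 ∧ ∃ m', m = m0 + m' ∧ K + m' ∈ Ctx out (P ++ rest) D b := by
  induction P using List.reverseRecOn with
  | nil =>
    intro rest a m K hm hK
    by_cases hQ : Q m
    · exact Or.inl ⟨hm, hQ⟩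
    · exact Or.inr ⟨a, m, hm, hQ, 0, by simp, by simpa [cnt_nil] using hK⟩
  | append_singleton P i ih =>
    intro rest a m K hm hK
    rw [cnt_append] at hm hK ⊢
    rw [List.append_assoc]
    change m ∈ i.cnt (cnt P D') a at hm
    change K ∈ Ctx out rest (i.cnt (cnt P D)) a at hK
    change m ∈ i.cnt (cnt P (res Q D')) a ∨ _
    obtain ⟨lc, hlc, z, hz, rfl⟩ := hm
    obtain ⟨l, c⟩ := lc
    simp only at hz ⊢
    have hsub : ∀ x, cnt P (res Q D') x ⊆ cnt P D x :=
      cnt_mono P (fun x y hy => hD x hy.1)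
    have key : ∀ (l2 l1 : List (R ⊕ V)) (z1 z2 : Mon V), l = l1 ++ l2 →
        z1 ∈ lsum (cnt P (res Q D')) i.x l1 → z2 ∈ lsum (cnt P D') i.x l2 →
        z1 + z2 ∈ lsum (cnt P (res Q D')) i.x l ∨
          ∃ b, ∃ m0 ∈ D' b, ¬ Q m0 ∧ ∃ m', z1 + z2 + (0, c) = m0 + m' ∧
            K + m' ∈ Ctx out (P ++ ([i] ++ rest)) D b := by
      intro l2
      induction l2 with
      | nil =>
        intro l1 z1 z2 hl h1 h2
        rw [Set.mem_singleton_iff.1 h2, add_zero]
        rw [List.append_nil] at hl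
        subst hl
        exact Or.inl h1
      | cons b l2 ihl =>
        intro l1 z1 z2 hl h1 h2
        obtain ⟨y, hy, z', hz', rfl⟩ := h2
        rw [← add_assoc]
        have hl' : l = (l1 ++ [b]) ++ l2 := by rw [hl]; simp
        cases b with
        | inr v =>
          have hy' : y ∈ atom (cnt P (res Q D')) i.x (.inr v) := hy
          exact ihl (l1 ++ [.inr v]) (z1 + y) z' hl'
            (lsum_append (lsum_single hy') l1 z1 h1) hz'
        | inl b =>
          have hctx : K + (z1 + z' + (0, c)) ∈ Ctx out (i :: rest) (cnt P D) b :=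
            ctx_factor hK (hl ▸ hlc) (lsum_mono hsub i.x l1 h1)
              (lsum_mono (cnt_mono P hD) i.x l2 hz')
          rcases ih (i :: rest) b y _ hy hctx with h3 | h3
          · exact ihl (l1 ++ [.inl b]) (z1 + y) z' hl'
              (lsum_append (lsum_single h3) l1 z1 h1) hz'
          · obtain ⟨b', m0, hm0, hQ, m', rfl, hc⟩ := h3
            refine Or.inr ⟨b', m0, hm0, hQ, m' + (z1 + z' + (0, c)), by abel, ?_⟩
            have : K + (m' + (z1 + z' + (0, c))) = K + (z1 + z' + (0, c)) + m' := by abel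
            rw [this]
            exact hc
    rcases key l [] 0 z rfl rfl hz with h | h
    · rw [zero_add] at h
      exact Or.inl ⟨(l, c), hlc, z, h, rfl⟩
    · rw [zero_add] at h
      exact Or.inr h

end Pool.Agent.L5helper51.SX
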